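import Pool.Agent.Y501.SY.FinalV
import Pool.Agent.Y455.SY.Pert

/-!
# Comparison of forms with a taming form on a closed manifold
-/

set_option autoImplicit false

open Set Filter Topology MeasureTheory
open scoped Manifold ContDiff

noncomputable section

namespace Pool.Agent.N13.TL

open Pool.Agent.Y501.SY

variable {d : ℕ} {X : Type} [TopologicalSpace X] [ChartedSpace (E d) X]

/-- the number `σ(v, J v)` -/
abbrev q (σ : Form d X 2) (J : End d X) (x : X) (v : TangentSpace (𝓡 d) x) : ℝ :=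
  σ x ![v, J x v]

theorem q_add (σ ρ : Form d X 2) (J : End d X) (x : X) (v : TangentSpace (𝓡 d) x) :
    q (σ + ρ) J x v = q σ J x v + q ρ J x v := rfl

theorem q_smul (c : ℝ) (σ : Form d X 2) (J : End d X) (x : X) (v : TangentSpace (𝓡 d) x) :
    q (c • σ) J x v = c * q σ J x v := rfl

theorem q_J {J : End d X} (hJ : IsAlmostComplex J) (σ : Form d X 2) (x : X)
    (v : TangentSpace (𝓡 d) x) : q σ J x (J x v) = q σ J x v := null_J hJ σ x v

theorem q_zero (σ : Form d X 2) (J : End d X) (x : X) : q σ J x 0 = 0 := by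
  have h : (![(0 : TangentSpace (𝓡 d) x), J x 0] : Fin 2 → TangentSpace (𝓡 d) x) 0 = 0 := rfl
  exact (σ x).map_coord_zero 0 h

theorem q_nonneg {τ : Form d X 2} {J : End d X} {x : X} (h : TamesAt τ J x)
    (v : TangentSpace (𝓡 d) x) : 0 ≤ q τ J x v := by
  by_cases hv : v = 0
  · rw [hv, q_zero]
  · exact (h v hv).le

variable [IsManifold (𝓡 d) ∞ X]

/-- a smooth form which tames at the points of a compact set tames uniformly -/
theorem pert_compact {J : End d X} (hJ : IsAlmostComplex J) {η τ : Form d X 2}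
    (hη : IsSmooth η) (hτ : IsSmooth τ) {K : Set X} (hK : IsCompact K)
    (h : ∀ x ∈ K, TamesAt η J x) :
    ∃ c : ℝ, 0 < c ∧ ∀ x ∈ K, ∀ s : ℝ, |s| ≤ c → TamesAt (η + s • τ) J x := by
  refine unif hK (fun c y => ∀ s : ℝ, |s| ≤ c → TamesAt (η + s • τ) J y)
    (fun ε ε' y hle hp s hs => hp s (hs.trans hle)) fun x hx => ?_
  obtain ⟨ε, hε, hp⟩ := Pool.Agent.Y455.SY.t_PERT d X J hJ (Fin 1) η (fun _ => τ) hη
    (fun _ => hτ) x (h x hx)
  refine ⟨ε, hε, ?_⟩
  filter_upwards [hp] with y hy s hs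
  have := hy (fun _ => s) (fun _ => hs)
  simpa using this

/-- every smooth form is bounded by a taming form -/
theorem bound2 [CompactSpace X] {J : End d X} (hJ : IsAlmostComplex J) {σ τ : Form d X 2}
    (hσ : IsSmooth σ) (hτ : IsSmooth τ) (h : ∀ x, TamesAt τ J x) :
    ∃ C : ℝ, 0 < C ∧ ∀ (x : X) (v : TangentSpace (𝓡 d) x), |q σ J x v| ≤ C * q τ J x v := by
  obtain ⟨c, hc, hp⟩ := pert_compact hJ hτ hσ (isCompact_univ (X := X)) fun x _ => h x
  refine ⟨c⁻¹, inv_pos.2 hc, fun x v => ?_⟩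
  by_cases hv : v = 0
  · rw [hv, q_zero, q_zero]
    simp
  have h1 : 0 < q τ J x v + c * q σ J x v := hp x (mem_univ x) c (abs_of_pos hc).le v hv
  have h2 : 0 < q τ J x v + (-c) * q σ J x v :=
    hp x (mem_univ x) (-c) (by rw [abs_neg, abs_of_pos hc]) v hv
  rw [inv_mul_eq_div, le_div_iff₀ hc, ← abs_of_pos hc, ← abs_mul, abs_le]
  constructor <;> linarith

/-- a taming form bounds the square of every smooth one-form -/
theorem bound1 [CompactSpace X] [T2Space X] {J : End d X} (hJ : IsAlmostComplex J)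
    {α : Form d X 1} {τ : Form d X 2} (hα : IsSmooth α) (hτ : IsSmooth τ)
    (h : ∀ x, TamesAt τ J x) :
    ∃ A : ℝ, 0 < A ∧ ∀ (x : X) (v : TangentSpace (𝓡 d) x), (α x ![v]) ^ 2 ≤ A * q τ J x v := by
  obtain ⟨m, F, hF, -, hFi⟩ := exists_embedding_euclidean_of_compact (I := 𝓡 d) (M := X)
  obtain ⟨B, hB, hB'⟩ := bdd1_glob Pool.Agent.Y44.SY.t_IMM hF hFi (β := α) (K := ∅) (by
    intro x
    have h1 : ContDiffOn ℝ ∞ (pb (chartAt (E d) x).symm α) (chartAt (E d) x).target :=
      hα _ _ (chartAt (E d) x).open_target contMDiffOn_chart_symm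
    have h2 : ContinuousAt (pb (chartAt (E d) x).symm α) (chartAt (E d) x x) :=
      h1.continuousOn.continuousAt
        ((chartAt (E d) x).open_target.mem_nhds (mem_chart_target (E d) x))
    refine ⟨‖pb (chartAt (E d) x).symm α (chartAt (E d) x x)‖ + 1, ?_⟩
    filter_upwards [h2.norm.eventually_lt_const (lt_add_one _)] with p hp _
    exact hp.le)
  obtain ⟨c, hc, hc'⟩ := unif (isCompact_univ (X := X))
    (fun (ε : ℝ) (y : X) => ∀ v : TangentSpace (𝓡 d) y, ε * nm F y v ^ 2 ≤ q τ J y v)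
    (fun ε ε' y hle hp v =>
      (mul_le_mul_of_nonneg_right hle (sq_nonneg _)).trans (hp v))
    (fun x _ => by
      have h1 : UTAt τ J ∅ x := by
        obtain ⟨r, hr, hball⟩ := Metric.nhds_basis_closedBall.mem_iff.1
          ((chartAt (E d) x).open_target.mem_nhds (mem_chart_target (E d) x))
        obtain ⟨c, hc, hc'⟩ := (Pool.Agent.Y44.SY.t_QB d X J hJ τ hτ x _
          (isCompact_closedBall (chartAt (E d) x x) r) hball).2 fun p _ => h _
        have hN : ∀ᶠ p in 𝓝 (chartAt (E d) x x), p ∈ Metric.closedBall (chartAt (E d) x x) r :=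
          Metric.closedBall_mem_nhds _ hr
        refine ⟨c, hc, ?_⟩
        filter_upwards [hN] with p hp _ v
        exact hc' p hp v
      obtain ⟨c, hc, h2⟩ := (UTAt_iff Pool.Agent.Y44.SY.t_IMM hF hFi τ J ∅ x).1 h1
      refine ⟨c, hc, ?_⟩
      filter_upwards [h2] with y hy v
      exact hy (notMem_empty y) v)
  refine ⟨B ^ 2 / c, by positivity, fun x v => ?_⟩
  have h1 := hB' x (notMem_empty x) v
  have h2 := hc' x (mem_univ x) v
  have h3 : (α x ![v]) ^ 2 ≤ (B * nm F x v) ^ 2 := by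
    rw [← sq_abs (α x ![v])]
    exact pow_le_pow_left₀ (abs_nonneg _) h1 2
  calc (α x ![v]) ^ 2 ≤ B ^ 2 / c * (c * nm F x v ^ 2) := by
        refine h3.trans (le_of_eq ?_)
        field_simp
    _ ≤ B ^ 2 / c * q τ J x v := mul_le_mul_of_nonneg_left h2 (by positivity)

end Pool.Agent.N13.TL
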