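import Pool.Agent.N13.TL.Basic

/-!
# The taming locus of a convex set of closed two-forms
-/

set_option autoImplicit false

open Set Filter Topology MeasureTheory
open scoped Manifold ContDiff

noncomputable section

namespace Pool.Agent.N13.TL

open Pool.Agent.Y501.SY

variable {d : ℕ} {X : Type} [TopologicalSpace X] [ChartedSpace (E d) X]

/-- a convex set of smooth closed two-forms, stable under the addition of exact forms -/
structure FC (𝒞 : Set (Form d X 2)) : Prop where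
  smooth : ∀ σ ∈ 𝒞, IsSmooth σ
  closed : ∀ σ ∈ 𝒞, IsClosedForm σ
  convex : Convex ℝ 𝒞
  exact : ∀ σ ∈ 𝒞, ∀ (α : Form d X 1) (ρ : Form d X 2), IsSmooth α → IsSmooth ρ → IsD α ρ →
    σ + ρ ∈ 𝒞

/-- uniform positivity over `S` of forms of `𝒞` with arbitrarily small negative part -/
def RS (𝒞 : Set (Form d X 2)) (J : End d X) (τ : Form d X 2) (S : Set X) : Prop :=
  ∃ c : ℝ, 0 < c ∧ ∀ ε : ℝ, 0 < ε → ∃ σ ∈ 𝒞,
    (∀ (y : X) (v : TangentSpace (𝓡 d) y), -ε * q τ J y v ≤ q σ J y v) ∧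
    ∀ y ∈ S, ∀ v : TangentSpace (𝓡 d) y, c * q τ J y v ≤ q σ J y v

/-- `x` is reached by `𝒞` -/
def Reached (𝒞 : Set (Form d X 2)) (J : End d X) (τ : Form d X 2) (x : X) : Prop :=
  ∃ N ∈ 𝓝 x, RS 𝒞 J τ N

/-- the points which are not reached -/
def Locus (𝒞 : Set (Form d X 2)) (J : End d X) (τ : Form d X 2) : Set X :=
  {x | ¬ Reached 𝒞 J τ x}

/-- controlled functions -/
structure Ctrl (𝒞 : Set (Form d X 2)) (J : End d X) (τ : Form d X 2) (f : X → ℝ) : Prop where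
  smooth : SmoothFun (d := d) f
  ctrl : ∃ κ : ℝ, 0 < κ ∧ ∀ ε : ℝ, 0 < ε → ∃ σ ∈ 𝒞, ∀ (y : X) (v : TangentSpace (𝓡 d) y),
    κ * (dd f y v) ^ 2 - ε * q τ J y v ≤ q σ J y v

/-- the fibre of the controlled functions in the locus -/
def Fib (𝒞 : Set (Form d X 2)) (J : End d X) (τ : Form d X 2) (z : X) : Set X :=
  {y | y ∈ Locus 𝒞 J τ ∧ ∀ f, Ctrl 𝒞 J τ f → f y = f z}

/-- there are forms in `𝒞` with arbitrarily small negative part -/
def Nef (𝒞 : Set (Form d X 2)) (J : End d X) (τ : Form d X 2) : Prop :=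
  ∀ ε : ℝ, 0 < ε → ∃ σ ∈ 𝒞, ∀ (y : X) (v : TangentSpace (𝓡 d) y), -ε * q τ J y v ≤ q σ J y v

variable {𝒞 : Set (Form d X 2)} {J : End d X} {τ : Form d X 2}

theorem RS.mono {S T : Set X} (h : RS 𝒞 J τ T) (hST : S ⊆ T) : RS 𝒞 J τ S := by
  obtain ⟨c, hc, h⟩ := h
  refine ⟨c, hc, fun ε hε => ?_⟩
  obtain ⟨σ, hσ, h1, h2⟩ := h ε hε
  exact ⟨σ, hσ, h1, fun y hy => h2 y (hST hy)⟩

theorem RS.nef {S : Set X} (h : RS 𝒞 J τ S) : Nef 𝒞 J τ := by
  obtain ⟨c, hc, h⟩ := h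
  intro ε hε
  obtain ⟨σ, hσ, h1, h2⟩ := h ε hε
  exact ⟨σ, hσ, h1⟩

theorem Ctrl.nef {f : X → ℝ} (h : Ctrl 𝒞 J τ f) : Nef 𝒞 J τ := by
  obtain ⟨κ, hκ, h⟩ := h.ctrl
  intro ε hε
  obtain ⟨σ, hσ, h1⟩ := h ε hε
  refine ⟨σ, hσ, fun y v => ?_⟩
  have h2 := h1 y v
  have h3 : 0 ≤ κ * (dd f y v) ^ 2 := by positivity
  linarith

theorem half_mem (hC : Convex ℝ 𝒞) {σ ρ : Form d X 2} (hσ : σ ∈ 𝒞) (hρ : ρ ∈ 𝒞) :
    (1 / 2 : ℝ) • σ + (1 / 2 : ℝ) • ρ ∈ 𝒞 :=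
  hC hσ hρ (by norm_num) (by norm_num) (by norm_num)

theorem q_half (σ ρ : Form d X 2) (J : End d X) (x : X) (v : TangentSpace (𝓡 d) x) :
    q ((1 / 2 : ℝ) • σ + (1 / 2 : ℝ) • ρ) J x v = 1 / 2 * q σ J x v + 1 / 2 * q ρ J x v := rfl

theorem RS.union (hC : Convex ℝ 𝒞) (hτ : ∀ x, TamesAt τ J x) {S T : Set X} (hS : RS 𝒞 J τ S)
    (hT : RS 𝒞 J τ T) : RS 𝒞 J τ (S ∪ T) := by
  obtain ⟨c, hc, hS⟩ := hS
  obtain ⟨c', hc', hT⟩ := hT
  have hm : 0 < min c c' := lt_min hc hc'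
  refine ⟨min c c' / 4, by positivity, fun ε hε => ?_⟩
  have hm' : 0 < min ε (min c c' / 2) := lt_min hε (by positivity)
  obtain ⟨σ, hσ, h1, h2⟩ := hS _ hm'
  obtain ⟨ρ, hρ, h3, h4⟩ := hT _ hm'
  refine ⟨_, half_mem hC hσ hρ, fun y v => ?_, fun y hy v => ?_⟩
  · have e1 := h1 y v
    have e2 := h3 y v
    have e3 := q_nonneg (hτ y) v
    have e4 := mul_le_mul_of_nonneg_right (min_le_left ε (min c c' / 2)) e3
    rw [q_half]
    linarith
  · have e1 := h1 y v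
    have e2 := h3 y v
    have e3 := q_nonneg (hτ y) v
    have e4 := mul_le_mul_of_nonneg_right (min_le_right ε (min c c' / 2)) e3
    have e5 := mul_le_mul_of_nonneg_right (min_le_left c c') e3
    have e6 := mul_le_mul_of_nonneg_right (min_le_right c c') e3
    rw [q_half]
    rcases hy with hy | hy
    · have e7 := h2 y hy v
      linarith
    · have e7 := h4 y hy v
      linarith

theorem RS.compact (hC : Convex ℝ 𝒞) (hτ : ∀ x, TamesAt τ J x) (hn : Nef 𝒞 J τ) {L : Set X}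
    (hL : IsCompact L) (h : ∀ x ∈ L, Reached 𝒞 J τ x) : RS 𝒞 J τ L := by
  refine hL.induction_on ?_ ?_ ?_ ?_
  · refine ⟨1, one_pos, fun ε hε => ?_⟩
    obtain ⟨σ, hσ, h1⟩ := hn ε hε
    exact ⟨σ, hσ, h1, fun y hy => absurd hy (notMem_empty y)⟩
  · intro s t hst ht
    exact ht.mono hst
  · intro s t hs ht
    exact hs.union hC hτ ht
  · intro x hx
    obtain ⟨N, hN, h1⟩ := h x hx
    exact ⟨N, mem_nhdsWithin_of_mem_nhds hN, h1⟩

theorem locus_closed : IsClosed (Locus 𝒞 J τ) := by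
  rw [← isOpen_compl_iff, isOpen_iff_eventually]
  intro x hx
  have hx' : Reached 𝒞 J τ x := by
    by_contra h
    exact hx h
  obtain ⟨N, hN, h⟩ := hx'
  filter_upwards [eventually_mem_nhds_iff.2 hN] with y hy h1
  exact h1 ⟨N, hy, h⟩

theorem Ctrl.add (hC : Convex ℝ 𝒞) {f g : X → ℝ} (hf : Ctrl 𝒞 J τ f) (hg : Ctrl 𝒞 J τ g) :
    Ctrl 𝒞 J τ (fun x => f x + g x) := by
  obtain ⟨κ, hκ, h⟩ := hf.ctrl
  obtain ⟨κ', hκ', h'⟩ := hg.ctrl
  refine ⟨hf.smooth.add hg.smooth, min κ κ' / 4, by positivity, fun ε hε => ?_⟩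
  obtain ⟨σ, hσ, h1⟩ := h ε hε
  obtain ⟨ρ, hρ, h2⟩ := h' ε hε
  refine ⟨_, half_mem hC hσ hρ, fun y v => ?_⟩
  have e1 := h1 y v
  have e2 := h2 y v
  rw [q_half, dd_add hf.smooth hg.smooth]
  have e3 := mul_le_mul_of_nonneg_right (min_le_left κ κ') (sq_nonneg (dd f y v))
  have e4 := mul_le_mul_of_nonneg_right (min_le_right κ κ') (sq_nonneg (dd g y v))
  have e5 : 0 ≤ min κ κ' * (dd f y v - dd g y v) ^ 2 := by positivity
  nlinarith

theorem Ctrl.sq_sub [CompactSpace X] {f : X → ℝ} (hf : Ctrl 𝒞 J τ f) (c : ℝ) :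
    Ctrl 𝒞 J τ (fun x => (f x + -c) * (f x + -c)) := by
  obtain ⟨κ, hκ, h⟩ := hf.ctrl
  have hs : SmoothFun (d := d) (fun x => f x + -c) := hf.smooth.add (SmoothFun.const (-c))
  obtain ⟨M, hM⟩ : ∃ M : ℝ, ∀ x, (f x + -c) ^ 2 ≤ M := by
    obtain ⟨M, hM⟩ := (isCompact_univ (X := X)).bddAbove_image
      (f := fun x => (f x + -c) ^ 2) (hs.continuous.pow 2).continuousOn
    exact ⟨M, fun x => hM ⟨x, mem_univ x, rfl⟩⟩
  refine ⟨hs.mul hs, κ / (4 * (|M| + 1)), by positivity, fun ε hε => ?_⟩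
  obtain ⟨σ, hσ, h1⟩ := h ε hε
  refine ⟨σ, hσ, fun y v => ?_⟩
  have e1 := h1 y v
  have e2 : dd (d := d) (fun x => (f x + -c) * (f x + -c)) y v =
      2 * (f y + -c) * dd f y v := by
    rw [dd_mul hs hs, dd_add hf.smooth (SmoothFun.const (-c))]
    have h0 : dd (d := d) (fun _ : X => -c) y v = 0 := by
      unfold dd
      rw [mfderiv_const]; rfl
    rw [h0]
    ring
  have e3 : κ / (4 * (|M| + 1)) * (dd (d := d) (fun x => (f x + -c) * (f x + -c)) y v) ^ 2 ≤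
      κ * (dd f y v) ^ 2 := by
    rw [e2]
    have e4 : (f y + -c) ^ 2 ≤ |M| + 1 := (hM y).trans ((le_abs_self M).trans (by linarith))
    have e5 : (0 : ℝ) < |M| + 1 := by positivity
    calc κ / (4 * (|M| + 1)) * (2 * (f y + -c) * dd f y v) ^ 2 =
        κ / (|M| + 1) * (dd f y v) ^ 2 * (f y + -c) ^ 2 := by
          field_simp
          ring
      _ ≤ κ / (|M| + 1) * (dd f y v) ^ 2 * (|M| + 1) :=
          mul_le_mul_of_nonneg_left e4 (by positivity)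
      _ = κ * (dd f y v) ^ 2 := by
          field_simp
  linarith

theorem ctrl_zero (hn : Nef 𝒞 J τ) : Ctrl 𝒞 J τ (fun _ => 0) := by
  refine ⟨SmoothFun.const 0, 1, one_pos, fun ε hε => ?_⟩
  obtain ⟨σ, hσ, h1⟩ := hn ε hε
  refine ⟨σ, hσ, fun y v => ?_⟩
  have h0 : dd (d := d) (fun _ : X => (0 : ℝ)) y v = 0 := by
    unfold dd
    rw [mfderiv_const]; rfl
  rw [h0]
  have := h1 y v
  linarith

/-- separation of a compact set by one controlled function -/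
theorem exists_sep [CompactSpace X] (hC : Convex ℝ 𝒞) (hn : Nef 𝒞 J τ) {z : X} {R : Set X}
    (hR : IsCompact R) (h : ∀ y ∈ R, ∃ f, Ctrl 𝒞 J τ f ∧ f y ≠ f z) :
    ∃ g, Ctrl 𝒞 J τ g ∧ g z = 0 ∧ (∀ x, 0 ≤ g x) ∧ ∃ r : ℝ, 0 < r ∧ ∀ y ∈ R, r ≤ g y := by
  refine hR.induction_on (p := fun R => ∃ g, Ctrl 𝒞 J τ g ∧ g z = 0 ∧ (∀ x, 0 ≤ g x) ∧
    ∃ r : ℝ, 0 < r ∧ ∀ y ∈ R, r ≤ g y) ?_ ?_ ?_ ?_
  · exact ⟨_, ctrl_zero hn, rfl, fun x => le_rfl, 1, one_pos, fun y hy =>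
      absurd hy (notMem_empty y)⟩
  · rintro s t hst ⟨g, h1, h2, h3, r, h4, h5⟩
    exact ⟨g, h1, h2, h3, r, h4, fun y hy => h5 y (hst hy)⟩
  · rintro s t ⟨g, h1, h2, h3, r, h4, h5⟩ ⟨g', h1', h2', h3', r', h4', h5'⟩
    refine ⟨_, h1.add hC h1', by simp [h2, h2'], fun x => add_nonneg (h3 x) (h3' x), min r r',
      lt_min h4 h4', ?_⟩
    rintro y (hy | hy)
    · have := h5 y hy
      have := h3' y
      have := min_le_left r r'
      show min r r' ≤ g y + g' y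
      linarith
    · have := h5' y hy
      have := h3 y
      have := min_le_right r r'
      show min r r' ≤ g y + g' y
      linarith
  · intro y hy
    obtain ⟨f, hf, hne⟩ := h y hy
    have h0 : 0 < (f y + -f z) * (f y + -f z) := by
      exact mul_self_pos.2 fun h => hne (by linarith)
    refine ⟨{x | (f y + -f z) * (f y + -f z) / 2 < (f x + -f z) * (f x + -f z)}, ?_, _,
      hf.sq_sub (f z), by ring, fun x => mul_self_nonneg _, _, half_pos h0, fun x hx => ?_⟩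
    · refine mem_nhdsWithin_of_mem_nhds ?_
      have hc : Continuous (fun x => (f x + -f z) * (f x + -f z)) :=
        (hf.sq_sub (f z)).smooth.continuous
      exact (isOpen_lt continuous_const hc).mem_nhds (half_lt_self h0)
    · exact le_of_lt hx

/-- the quadratic estimate -/
theorem quad {c₀ A Mb t W β D1 D2 a1 a2 qη : ℝ} (hc₀ : 0 < c₀) (hA : 0 < A)
    (hβ : β ^ 2 ≤ Mb) (h1 : a1 ^ 2 ≤ A * t) (h2 : a2 ^ 2 ≤ A * t)
    (hη : c₀ * t ≤ qη) :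
    c₀ / 2 * (W * W) * t - Mb * (4 * A / c₀) * (D1 ^ 2 + D2 ^ 2) ≤
      W * W * qη + (2 * W * (β * D1) * a2 - 2 * W * (β * D2) * a1) := by
  have hs : 0 < c₀ / (4 * A) := by positivity
  have key : ∀ D a : ℝ, a ^ 2 ≤ A * t →
      |2 * W * (β * D) * a| ≤ c₀ / 4 * (W * W) * t + Mb * (4 * A / c₀) * D ^ 2 := by
    intro D a ha
    have e1 : 0 ≤ (c₀ / (4 * A)) * (W * a + (4 * A / c₀) * (β * D)) ^ 2 := by positivity
    have e2 : 0 ≤ (c₀ / (4 * A)) * (W * a - (4 * A / c₀) * (β * D)) ^ 2 := by positivity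
    have e3 : (c₀ / (4 * A)) * (W * a + (4 * A / c₀) * (β * D)) ^ 2 =
        (c₀ / (4 * A)) * (W * W) * a ^ 2 + 2 * W * (β * D) * a + (4 * A / c₀) * (β ^ 2 * D ^ 2) := by
      field_simp
      ring
    have e4 : (c₀ / (4 * A)) * (W * a - (4 * A / c₀) * (β * D)) ^ 2 =
        (c₀ / (4 * A)) * (W * W) * a ^ 2 - 2 * W * (β * D) * a + (4 * A / c₀) * (β ^ 2 * D ^ 2) := by
      field_simp
      ring
    have e5 : (c₀ / (4 * A)) * (W * W) * a ^ 2 ≤ c₀ / 4 * (W * W) * t := by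
      calc (c₀ / (4 * A)) * (W * W) * a ^ 2 ≤ (c₀ / (4 * A)) * (W * W) * (A * t) :=
            mul_le_mul_of_nonneg_left ha (mul_nonneg hs.le (mul_self_nonneg W))
        _ = c₀ / 4 * (W * W) * t := by field_simp
    have e6 : (4 * A / c₀) * (β ^ 2 * D ^ 2) ≤ Mb * (4 * A / c₀) * D ^ 2 := by
      calc (4 * A / c₀) * (β ^ 2 * D ^ 2) ≤ (4 * A / c₀) * (Mb * D ^ 2) :=
            mul_le_mul_of_nonneg_left (mul_le_mul_of_nonneg_right hβ (sq_nonneg D)) (by positivity)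
        _ = _ := by ring
    rw [abs_le]
    constructor <;> linarith
  have k1 := (abs_le.1 (key D1 a2 h2)).1
  have k2 := (abs_le.1 (key D2 a1 h1)).2
  have k3 : W * W * (c₀ * t) ≤ W * W * qη := mul_le_mul_of_nonneg_left hη (mul_self_nonneg W)
  nlinarith

end Pool.Agent.N13.TL
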