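import Pool.Agent.N13.TL.Locus

/-!
# The taming locus has no small fibre components
-/

set_option autoImplicit false

open Set Filter Topology MeasureTheory
open scoped Manifold ContDiff

noncomputable section

namespace Pool.Agent.N13.TL

open Pool.Agent.Y501.SY

variable {d : ℕ} {X : Type} [TopologicalSpace X] [ChartedSpace (E d) X]
  [IsManifold (𝓡 d) ∞ X]

variable {𝒞 : Set (Form d X 2)} {J : End d X} {τ : Form d X 2}

omit [IsManifold (𝓡 d) ∞ X] in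
theorem fib_closed (z : X) : IsClosed (Fib 𝒞 J τ z) := by
  have h : Fib 𝒞 J τ z = Locus 𝒞 J τ ∩ ⋂ (f : X → ℝ) (_ : Ctrl 𝒞 J τ f), {y | f y = f z} := by
    ext y
    simp [Fib]
  rw [h]
  exact locus_closed.inter (isClosed_iInter fun f => isClosed_iInter fun hf =>
    isClosed_eq hf.smooth.continuous continuous_const)

/-- a cut-off on the line -/
theorem cut (r : ℝ) (hr : 0 < r) : ∃ b : ℝ → ℝ, ContDiff ℝ ∞ b ∧ b 0 = 1 ∧
    ∀ t, r / 2 ≤ t → b t = 0 := by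
  refine ⟨fun t => Real.smoothTransition (2 - 4 * t / r), ?_, ?_, fun t ht => ?_⟩
  · have h2 : ContDiff ℝ ∞ Real.smoothTransition := Real.smoothTransition.contDiff
    exact h2.comp (by fun_prop)
  · show Real.smoothTransition (2 - 4 * 0 / r) = 1
    exact Real.smoothTransition.one_of_one_le (by norm_num)
  · show Real.smoothTransition (2 - 4 * t / r) = 0
    refine Real.smoothTransition.zero_of_nonpos ?_
    have : 2 ≤ 4 * t / r := by
      rw [le_div_iff₀ hr]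
      linarith
    linarith

/-- **The components of the fibres of the controlled functions in the locus are large.** -/
theorem reached_of_small [CompactSpace X] [T2Space X] [PreconnectedSpace X]
    (hJ : IsAlmostComplex J) (hτ : IsSmooth τ) (hτt : ∀ x, TamesAt τ J x) (hC : FC 𝒞)
    (hne : 𝒞.Nonempty) {z : X} (hz : z ∈ Locus 𝒞 J τ)
    (hsmall : ∀ w ∈ connectedComponentIn (Fib 𝒞 J τ z) z,
      ThinAt2 0 0 J (connectedComponentIn (Fib 𝒞 J τ z) z) w) : False := by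
  classical
  have hFc : IsCompact (Fib 𝒞 J τ z) := (fib_closed z).isCompact
  have hzF : z ∈ Fib 𝒞 J τ z := ⟨hz, fun f _ => rfl⟩
  have hCc := compact_comp' hFc hzF
  obtain ⟨α, η, hpair, hη⟩ := cover3 Pool.Agent.Y484.SY.t_GEN Pool.Agent.Y108.SY.t_PERT2
    Pool.Agent.Y925.SY.t_PLANAR hJ (σ := 0) (θ := 0) IsSmooth.zero IsSmooth.zero hCc hsmall
  obtain ⟨hα, hηs, hαη, hηc⟩ := hpair.props Pool.Agent.Y484.SY.t_GEN
  obtain ⟨c₀, hc₀, hc₀'⟩ := pert_compact hJ hηs hτ hCc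
    fun x hx v hv => hη x hx v hv rfl rfl
  obtain ⟨U, hU⟩ : ∃ U : Set X, U = {x | TamesAt (η + (-c₀) • τ) J x} := ⟨_, rfl⟩
  have hUo : IsOpen U := by
    rw [hU, isOpen_iff_eventually]
    intro x hx
    exact TamesAt.nhds Pool.Agent.Y455.SY.t_PERT hJ (hηs.add (hτ.smul (-c₀))) hx
  have hCU : connectedComponentIn (Fib 𝒞 J τ z) z ⊆ U := by
    intro x hx
    rw [hU]
    exact hc₀' x hx (-c₀) (by rw [abs_neg, abs_of_pos hc₀])
  have hUb : ∀ x ∈ U, ∀ v : TangentSpace (𝓡 d) x, c₀ * q τ J x v ≤ q η J x v := by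
    intro x hx v
    rw [hU] at hx
    have h1 := q_nonneg hx v
    rw [q_add, q_smul] at h1
    linarith
  by_cases hnef : Nef 𝒞 J τ
  swap
  · -- no form is almost nonnegative
    have hL : Locus 𝒞 J τ = univ := by
      ext x
      simp only [mem_univ, iff_true]
      rintro ⟨N, -, h⟩
      exact hnef h.nef
    have hF : Fib 𝒞 J τ z = univ := by
      ext x
      simp only [mem_univ, iff_true]
      refine ⟨?_, fun f hf => absurd hf.nef hnef⟩
      rw [hL]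
      exact mem_univ x
    rw [hF, isPreconnected_univ.connectedComponentIn (mem_univ z)] at hCU
    obtain ⟨σ₀, hσ₀⟩ := hne
    obtain ⟨C, hC0, hC'⟩ := bound2 hJ (hC.smooth σ₀ hσ₀) hτ hτt
    have hmem := hC.exact σ₀ hσ₀ ((C / c₀) • α) ((C / c₀) • η) (hα.smul _) (hηs.smul _)
      (hαη.smul _)
    refine hnef fun ε hε => ⟨_, hmem, fun y v => ?_⟩
    rw [q_add, q_smul]
    have h1 := (abs_le.1 (hC' y v)).1
    have h2 := hUb y (hCU (mem_univ y)) v
    have h3 := q_nonneg (hτt y) v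
    have h4 : C / c₀ * (c₀ * q τ J y v) ≤ C / c₀ * q η J y v :=
      mul_le_mul_of_nonneg_left h2 (by positivity)
    have h5 : C / c₀ * (c₀ * q τ J y v) = C * q τ J y v := by
      field_simp
    nlinarith
  -- separation
  obtain ⟨O₁, O₂, o1, o2, hdis, hz1, hO1, hFO⟩ := comp_sep hFc hzF hUo hCU
  have hLc : IsCompact (Locus 𝒞 J τ) := locus_closed.isCompact
  have hR : IsCompact (Locus 𝒞 J τ \ (O₁ ∪ O₂)) := hLc.diff (o1.union o2)
  obtain ⟨g, hg, hgz, hg0, r, hr, hgr⟩ := exists_sep hC.convex hnef (z := z) hR (by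
    intro y hy
    by_contra hcon
    push Not at hcon
    exact hy.2 (hFO ⟨hy.1, hcon⟩))
  obtain ⟨b, hb, hb0, hb1⟩ := cut r hr
  have hgc : Continuous g := hg.smooth.continuous
  have hDc : IsClosed (Locus 𝒞 J τ ∩ {x | g x ≤ r / 2}) :=
    locus_closed.inter (isClosed_le hgc continuous_const)
  have hDO : Locus 𝒞 J τ ∩ {x | g x ≤ r / 2} ⊆ O₁ ∪ O₂ := by
    intro x hx
    by_contra hxO
    have h1 := hgr x ⟨hx.1, hxO⟩
    have h2 : g x ≤ r / 2 := hx.2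
    linarith
  have k1 : IsClosed ((Locus 𝒞 J τ ∩ {x | g x ≤ r / 2}) \ O₂) := hDc.sdiff o2
  have k2 : IsClosed ((Locus 𝒞 J τ ∩ {x | g x ≤ r / 2}) \ O₁) := hDc.sdiff o1
  have kd : Disjoint ((Locus 𝒞 J τ ∩ {x | g x ≤ r / 2}) \ O₁)
      ((Locus 𝒞 J τ ∩ {x | g x ≤ r / 2}) \ O₂) := by
    rw [Set.disjoint_left]
    rintro x ⟨hx, hx1⟩ ⟨_, hx2⟩
    rcases hDO hx with h | h
    · exact hx1 h
    · exact hx2 h
  obtain ⟨ψ, hψ0, hψ1, hψ⟩ :=
    exists_contMDiffMap_zero_one_nhds_of_isClosed (n := (⊤ : ℕ∞)) (𝓡 d) k2 k1 kd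
  have e1 : ∀ x ∈ (Locus 𝒞 J τ ∩ {x | g x ≤ r / 2}) \ O₂, ∀ᶠ y in 𝓝 x, ψ y = 1 :=
    fun x hx => hψ1.filter_mono (nhds_le_nhdsSet hx)
  have e0 : ∀ x ∈ (Locus 𝒞 J τ ∩ {x | g x ≤ r / 2}) \ O₁, ∀ᶠ y in 𝓝 x, ψ y = 0 :=
    fun x hx => hψ0.filter_mono (nhds_le_nhdsSet hx)
  have hψs : SmoothFun (d := d) (fun x => ψ x) := ψ.contMDiff
  have hbg : SmoothFun (d := d) (fun x => b (g x)) := SmoothFun.comp1 hb hg.smooth
  have hw : SmoothFun (d := d) (fun x => ψ x * b (g x)) := hψs.mul hbg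
  have hu : SmoothFun (d := d) (fun x => (ψ x * b (g x)) * (ψ x * b (g x))) := hw.mul hw
  obtain ⟨α', ρ, hp', -, hρ⟩ := hpair.smulFun hu
  obtain ⟨hα', hρs, hαρ, hρc⟩ := hp'.props Pool.Agent.Y484.SY.t_GEN
  obtain ⟨A, hA, hA'⟩ := bound1 hJ hα hτ hτt
  obtain ⟨C₂, hC₂, hC₂'⟩ := bound2 hJ hρs hτ hτt
  obtain ⟨κ, hκ, hκ'⟩ := hg.ctrl
  obtain ⟨Mb, hMb, hMb'⟩ : ∃ M : ℝ, 0 < M ∧ ∀ x, (deriv b (g x)) ^ 2 ≤ M := by
    have hdc : Continuous (fun x => (deriv b (g x)) ^ 2) :=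
      ((hb.continuous_deriv (by simp)).comp hgc).pow 2
    obtain ⟨M, hM⟩ := (isCompact_univ (X := X)).bddAbove_image
      (f := fun x => (deriv b (g x)) ^ 2) hdc.continuousOn
    exact ⟨|M| + 1, by positivity, fun x => (hM ⟨x, mem_univ x, rfl⟩).trans
      ((le_abs_self M).trans (by linarith))⟩
  -- the form `ρ`
  have hdd : ∀ (x : X) (v : TangentSpace (𝓡 d) x),
      dd (d := d) (fun x => (ψ x * b (g x)) * (ψ x * b (g x))) x v =
        2 * (ψ x * b (g x)) * (ψ x * (deriv b (g x) * dd g x v) +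
          b (g x) * dd (d := d) (fun x => ψ x) x v) := by
    intro x v
    rw [dd_mul hw hw, dd_mul hψs hbg, dd_comp1 hb hg.smooth]
    ring
  have hzero : ∀ x, ψ x * b (g x) = 0 → ∀ v : TangentSpace (𝓡 d) x, q ρ J x v = 0 := by
    intro x hx v
    show ρ x ![v, J x v] = 0
    rw [hρ, hdd, hdd, hx]
    ring
  have hpos : ∀ x, (∀ᶠ y in 𝓝 x, ψ y = 1) → x ∈ U → ∀ v : TangentSpace (𝓡 d) x,
      c₀ / 2 * ((ψ x * b (g x)) * (ψ x * b (g x))) * q τ J x v -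
        Mb * (4 * A / c₀) * ((dd g x v) ^ 2 + (dd g x (J x v)) ^ 2) ≤ q ρ J x v := by
    intro x hx hxU v
    have h1 : ∀ v : TangentSpace (𝓡 d) x, dd (d := d) (fun x => ψ x) x v = 0 :=
      dd_eventually_const hx
    have h2 : ψ x = 1 := hx.self_of_nhds
    have h3 : q ρ J x v = (ψ x * b (g x)) * (ψ x * b (g x)) * q η J x v +
        (2 * (ψ x * b (g x)) * (deriv b (g x) * dd g x v) * α x ![J x v] -
          2 * (ψ x * b (g x)) * (deriv b (g x) * dd g x (J x v)) * α x ![v]) := by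
      show ρ x ![v, J x v] = _
      rw [hρ, hdd, hdd, h1, h1, h2]
      ring
    rw [h3]
    refine quad hc₀ hA (hMb' x) (hA' x v) ?_ (hUb x hxU v)
    have h4 := hA' x (J x v)
    rwa [q_J hJ] at h4
  -- the regions
  have hG1o : IsOpen ({x | ∀ᶠ y in 𝓝 x, ψ y = 1} ∩ U) := isOpen_setOfPred_eventually_nhds.inter hUo
  have hG2o : IsOpen {x | ∀ᶠ y in 𝓝 x, ψ y = 0} := isOpen_setOfPred_eventually_nhds
  have hG3o : IsOpen {x | r / 2 < g x} := isOpen_lt continuous_const hgc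
  have hRSL : RS 𝒞 J τ (({x | ∀ᶠ y in 𝓝 x, ψ y = 1} ∩ U) ∪ {x | ∀ᶠ y in 𝓝 x, ψ y = 0} ∪
      {x | r / 2 < g x})ᶜ := by
    refine RS.compact hC.convex hτt hnef
      (((hG1o.union hG2o).union hG3o).isClosed_compl.isCompact) fun x hx => ?_
    by_contra hcon
    have hxL : x ∈ Locus 𝒞 J τ := hcon
    apply hx
    by_cases h1 : r / 2 < g x
    · exact Or.inr h1
    have h2 : x ∈ Locus 𝒞 J τ ∩ {x | g x ≤ r / 2} := ⟨hxL, not_lt.1 h1⟩
    left
    by_cases h3 : x ∈ O₁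
    · left
      exact ⟨e1 x ⟨h2, fun h4 => (Set.disjoint_left.1 hdis) h3 h4⟩, hO1 h3⟩
    · right
      exact e0 x ⟨h2, h3⟩
  obtain ⟨cL, hcL, hcL'⟩ := hRSL
  -- the constant
  obtain ⟨δ, hδ, hδ1, hδ2⟩ : ∃ δ : ℝ, 0 < δ ∧ δ * (Mb * (4 * A / c₀)) ≤ κ / 4 ∧
      δ * C₂ ≤ cL / 4 := by
    refine ⟨min (κ / 4 / (Mb * (4 * A / c₀))) (cL / 4 / C₂), by positivity, ?_, ?_⟩
    · calc min (κ / 4 / (Mb * (4 * A / c₀))) (cL / 4 / C₂) * (Mb * (4 * A / c₀)) ≤
          κ / 4 / (Mb * (4 * A / c₀)) * (Mb * (4 * A / c₀)) :=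
            mul_le_mul_of_nonneg_right (min_le_left _ _) (by positivity)
        _ = κ / 4 := by field_simp
    · calc min (κ / 4 / (Mb * (4 * A / c₀))) (cL / 4 / C₂) * C₂ ≤ cL / 4 / C₂ * C₂ :=
            mul_le_mul_of_nonneg_right (min_le_right _ _) hC₂.le
        _ = cL / 4 := by field_simp
  -- the conclusion
  have hzk : z ∈ (Locus 𝒞 J τ ∩ {x | g x ≤ r / 2}) \ O₂ := by
    refine ⟨⟨hz, ?_⟩, fun h4 => (Set.disjoint_left.1 hdis) hz1 h4⟩
    show g z ≤ r / 2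
    rw [hgz]
    positivity
  have hwz : ψ z * b (g z) = 1 := by
    rw [hgz, hb0, (e1 z hzk).self_of_nhds]
    norm_num
  apply hz
  refine ⟨({x | ∀ᶠ y in 𝓝 x, ψ y = 1} ∩ U) ∩
    {x | 1 / 2 < (ψ x * b (g x)) * (ψ x * b (g x))}, ?_, δ * c₀ / 8, by positivity, ?_⟩
  · refine Filter.inter_mem (hG1o.mem_nhds ⟨e1 z hzk, hO1 hz1⟩) ?_
    refine (isOpen_lt continuous_const hu.continuous).mem_nhds ?_
    show 1 / 2 < (ψ z * b (g z)) * (ψ z * b (g z))
    rw [hwz]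
    norm_num
  intro ε hε
  have hε' : 0 < min ε (δ * c₀ / 8) := by positivity
  obtain ⟨σ₁, hσ₁, s1⟩ := hκ' _ hε'
  obtain ⟨σ₂, hσ₂, s2, s3⟩ := hcL' _ hε'
  have s1' : ∀ (y : X) (v : TangentSpace (𝓡 d) y),
      κ / 2 * ((dd g y v) ^ 2 + (dd g y (J y v)) ^ 2) - min ε (δ * c₀ / 8) * q τ J y v ≤
        q σ₁ J y v := by
    intro y v
    have a1 := s1 y v
    have a2 := s1 y (J y v)
    rw [q_J hJ, q_J hJ] at a2
    linarith
  have hmem := hC.exact _ (half_mem hC.convex hσ₁ hσ₂) (δ • α') (δ • ρ) (hα'.smul _)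
    (hρs.smul _) (hαρ.smul _)
  have hq : ∀ (y : X) (v : TangentSpace (𝓡 d) y),
      q ((1 / 2 : ℝ) • σ₁ + (1 / 2 : ℝ) • σ₂ + δ • ρ) J y v =
        1 / 2 * q σ₁ J y v + 1 / 2 * q σ₂ J y v + δ * q ρ J y v := fun y v => rfl
  have hG1 : ∀ y ∈ {x | ∀ᶠ y in 𝓝 x, ψ y = 1} ∩ U, ∀ v : TangentSpace (𝓡 d) y,
      δ * (c₀ / 2) * ((ψ y * b (g y)) * (ψ y * b (g y))) * q τ J y v -
        min ε (δ * c₀ / 8) * q τ J y v ≤
        q ((1 / 2 : ℝ) • σ₁ + (1 / 2 : ℝ) • σ₂ + δ • ρ) J y v := by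
    intro y hy v
    rw [hq]
    have a1 := s1' y v
    have a2 := s2 y v
    have a3 := mul_le_mul_of_nonneg_left (hpos y hy.1 hy.2 v) hδ.le
    have a4 := mul_le_mul_of_nonneg_right hδ1
      (add_nonneg (sq_nonneg (dd g y v)) (sq_nonneg (dd g y (J y v))))
    nlinarith
  have hmin1 := min_le_left ε (δ * c₀ / 8)
  have hmin2 := min_le_right ε (δ * c₀ / 8)
  refine ⟨_, hmem, fun y v => ?_, fun y hy v => ?_⟩
  · have t0 := q_nonneg (hτt y) v
    have t1 := mul_le_mul_of_nonneg_right hmin1 t0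
    by_cases hy : y ∈ ({x | ∀ᶠ y in 𝓝 x, ψ y = 1} ∩ U) ∪ {x | ∀ᶠ y in 𝓝 x, ψ y = 0} ∪
        {x | r / 2 < g x}
    · by_cases hy1 : y ∈ {x | ∀ᶠ y in 𝓝 x, ψ y = 1} ∩ U
      · have a1 := hG1 y hy1 v
        have a2 : 0 ≤ δ * (c₀ / 2) * ((ψ y * b (g y)) * (ψ y * b (g y))) * q τ J y v :=
          mul_nonneg (mul_nonneg (by positivity) (mul_self_nonneg _)) t0
        linarith
      · have hw0 : ψ y * b (g y) = 0 := by
          rcases hy with (hy | hy) | hy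
          · exact absurd hy hy1
          · have : ψ y = 0 := (show ∀ᶠ y in 𝓝 y, ψ y = 0 from hy).self_of_nhds
            rw [this, zero_mul]
          · rw [hb1 (g y) (le_of_lt hy), mul_zero]
        rw [hq, hzero y hw0 v]
        have a1 := s1' y v
        have a2 := s2 y v
        have a3 : 0 ≤ κ / 2 * ((dd g y v) ^ 2 + (dd g y (J y v)) ^ 2) := by positivity
        linarith
    · rw [hq]
      have a1 := s1' y v
      have a2 := s3 y hy v
      have a3 := mul_le_mul_of_nonneg_left ((abs_le.1 (hC₂' y v)).1) hδ.le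
      have a4 : 0 ≤ κ / 2 * ((dd g y v) ^ 2 + (dd g y (J y v)) ^ 2) := by positivity
      have a5 := mul_le_mul_of_nonneg_right hδ2 t0
      have a6 : 0 ≤ cL * q τ J y v := mul_nonneg hcL.le t0
      nlinarith
  · have t0 := q_nonneg (hτt y) v
    have t1 := mul_le_mul_of_nonneg_right hmin2 t0
    have a1 := hG1 y hy.1 v
    have a2 : 1 / 2 < (ψ y * b (g y)) * (ψ y * b (g y)) := hy.2
    have a3 : δ * (c₀ / 2) * (1 / 2) * q τ J y v ≤
        δ * (c₀ / 2) * ((ψ y * b (g y)) * (ψ y * b (g y))) * q τ J y v :=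
      mul_le_mul_of_nonneg_right (mul_le_mul_of_nonneg_left a2.le (by positivity)) t0
    linarith

theorem RS.change [CompactSpace X] (hJ : IsAlmostComplex J) {τ' : Form d X 2} (hτ : IsSmooth τ)
    (hτt : ∀ x, TamesAt τ J x) (hτ' : IsSmooth τ') (hτt' : ∀ x, TamesAt τ' J x) {S : Set X}
    (h : RS 𝒞 J τ S) : RS 𝒞 J τ' S := by
  obtain ⟨C, hC, h1⟩ := bound2 hJ hτ hτ' hτt'
  obtain ⟨C', hC', h2⟩ := bound2 hJ hτ' hτ hτt
  obtain ⟨c, hc, h3⟩ := h
  refine ⟨c / C', by positivity, fun ε hε => ?_⟩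
  obtain ⟨σ, hσ, h4, h5⟩ := h3 (ε / C) (by positivity)
  refine ⟨σ, hσ, fun y v => ?_, fun y hy v => ?_⟩
  · have e1 := h4 y v
    have e2 := mul_le_mul_of_nonneg_left ((le_abs_self _).trans (h1 y v))
      (show 0 ≤ ε / C by positivity)
    have e3 : ε / C * (C * q τ' J y v) = ε * q τ' J y v := by field_simp
    linarith
  · have e1 := h5 y hy v
    have e2 := mul_le_mul_of_nonneg_left ((le_abs_self _).trans (h2 y v))
      (show 0 ≤ c / C' by positivity)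
    have e3 : c / C' * (C' * q τ J y v) = c * q τ J y v := by field_simp
    linarith

/-- the locus does not depend on the taming form -/
theorem locus_eq [CompactSpace X] (hJ : IsAlmostComplex J) {τ' : Form d X 2} (hτ : IsSmooth τ)
    (hτt : ∀ x, TamesAt τ J x) (hτ' : IsSmooth τ') (hτt' : ∀ x, TamesAt τ' J x) :
    Locus 𝒞 J τ' = Locus 𝒞 J τ := by
  ext x
  refine not_congr ⟨?_, ?_⟩
  · rintro ⟨N, hN, h⟩
    exact ⟨N, hN, h.change hJ hτ' hτt' hτ hτt⟩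
  · rintro ⟨N, hN, h⟩
    exact ⟨N, hN, h.change hJ hτ hτt hτ' hτt'⟩

/-- the locus is empty if and only if `𝒞` contains a taming form -/
theorem empty_iff [CompactSpace X] (hJ : IsAlmostComplex J) (hτ : IsSmooth τ)
    (hτt : ∀ x, TamesAt τ J x) (hC : FC 𝒞) (hne : 𝒞.Nonempty) :
    (∃ σ ∈ 𝒞, ∀ x, TamesAt σ J x) ↔ Locus 𝒞 J τ = ∅ := by
  constructor
  · rintro ⟨σ, hσ, hσt⟩
    obtain ⟨c, hc, h⟩ := pert_compact hJ (hC.smooth σ hσ) hτ (isCompact_univ (X := X))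
      fun x _ => hσt x
    have h1 : ∀ (x : X) (v : TangentSpace (𝓡 d) x), c * q τ J x v ≤ q σ J x v := by
      intro x v
      have h2 := q_nonneg (h x (mem_univ x) (-c) (by rw [abs_neg, abs_of_pos hc])) v
      rw [q_add, q_smul] at h2
      linarith
    rw [Set.eq_empty_iff_forall_notMem]
    intro x hx
    apply hx
    refine ⟨univ, univ_mem, c, hc, fun ε hε => ⟨σ, hσ, fun y v => ?_, fun y _ v => h1 y v⟩⟩
    have h3 := q_nonneg (hτt y) v
    have h4 := h1 y v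
    nlinarith
  · intro h
    rcases isEmpty_or_nonempty X with hX | ⟨⟨x₀⟩⟩
    · obtain ⟨σ, hσ⟩ := hne
      exact ⟨σ, hσ, fun x => hX.elim x⟩
    have hr : ∀ x, Reached 𝒞 J τ x := by
      intro x
      by_contra hcon
      have : x ∈ Locus 𝒞 J τ := hcon
      rw [h] at this
      exact this
    obtain ⟨N, hN, hRS⟩ := hr x₀
    obtain ⟨c, hc, h1⟩ := RS.compact hC.convex hτt hRS.nef (isCompact_univ (X := X))
      fun x _ => hr x
    obtain ⟨σ, hσ, -, h2⟩ := h1 1 one_pos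
    refine ⟨σ, hσ, fun x v hv => ?_⟩
    exact lt_of_lt_of_le (mul_pos hc (hτt x v hv)) (h2 x (mem_univ x) v)

end Pool.Agent.N13.TL
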