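import Pool.Agent.N13.TL.Main

/-!
# Null vectors of a set of closed two-forms
-/

set_option autoImplicit false

open Set Filter Topology MeasureTheory
open scoped Manifold ContDiff

noncomputable section

namespace Pool.Agent.N13.TL

open Pool.Agent.Y501.SY

variable {d : ℕ} {X : Type} [TopologicalSpace X] [ChartedSpace (E d) X]

/-- the function `h` is bounded above by forms of `𝒞`, up to arbitrarily small errors -/
def Supp (𝒞 : Set (Form d X 2)) (J : End d X) (τ : Form d X 2)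
    (h : (x : X) → TangentSpace (𝓡 d) x → ℝ) : Prop :=
  ∀ ε : ℝ, 0 < ε → ∃ σ ∈ 𝒞, ∀ (y : X) (v : TangentSpace (𝓡 d) y),
    h y v ≤ q σ J y v + ε * q τ J y v

/-- null vectors: `θ(v, J v) ≤ 0` for all smooth forms `θ` such that the positive part of
`θ(u, J u)` is supported by `𝒞` -/
def NullV (𝒞 : Set (Form d X 2)) (J : End d X) (τ : Form d X 2) (x : X)
    (v : TangentSpace (𝓡 d) x) : Prop :=
  ∀ θ : Form d X 2, IsSmooth θ → Supp 𝒞 J τ (fun y u => max (q θ J y u) 0) → q θ J x v ≤ 0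

/-- `η` is positive on the null vectors at `x` -/
def Pos (𝒞 : Set (Form d X 2)) (J : End d X) (τ η : Form d X 2) (x : X) : Prop :=
  ∀ v : TangentSpace (𝓡 d) x, v ≠ 0 → NullV 𝒞 J τ x v → 0 < q η J x v

/-- nonnegative supported functions which vanish on the null vectors -/
structure Fn (𝒞 : Set (Form d X 2)) (J : End d X) (τ : Form d X 2)
    (h : (x : X) → TangentSpace (𝓡 d) x → ℝ) : Prop where
  nonneg : ∀ (y : X) (v : TangentSpace (𝓡 d) y), 0 ≤ h y v
  supp : Supp 𝒞 J τ h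
  null : ∀ (y : X) (v : TangentSpace (𝓡 d) y), NullV 𝒞 J τ y v → h y v = 0
  homog : ∀ (y : X) (r : ℝ) (v : TangentSpace (𝓡 d) y), h y (r • v) = r ^ 2 * h y v

variable {𝒞 : Set (Form d X 2)} {J : End d X} {τ : Form d X 2}

theorem NullV.map_J (hJ : IsAlmostComplex J) {x : X} {v : TangentSpace (𝓡 d) x}
    (h : NullV 𝒞 J τ x v) : NullV 𝒞 J τ x (J x v) := by
  intro θ hθ hs
  rw [q_J hJ]
  exact h θ hθ hs

theorem Fn.zero (hn : Nef 𝒞 J τ) : Fn 𝒞 J τ (fun _ _ => 0) := by
  refine ⟨fun _ _ => le_rfl, fun ε hε => ?_, fun _ _ _ => rfl, fun _ _ _ => by simp⟩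
  obtain ⟨σ, hσ, h⟩ := hn ε hε
  exact ⟨σ, hσ, fun y v => by have := h y v; linarith⟩

theorem Fn.half (hC : Convex ℝ 𝒞) {h h' : (x : X) → TangentSpace (𝓡 d) x → ℝ}
    (H : Fn 𝒞 J τ h) (H' : Fn 𝒞 J τ h') :
    Fn 𝒞 J τ (fun y v => 1 / 2 * h y v + 1 / 2 * h' y v) := by
  refine ⟨fun y v => ?_, fun ε hε => ?_, fun y v hv => ?_, fun y r v => ?_⟩
  · have h1 := H.nonneg y v
    have h2 := H'.nonneg y v
    positivity
  · obtain ⟨σ, hσ, h1⟩ := H.supp ε hε
    obtain ⟨ρ, hρ, h2⟩ := H'.supp ε hε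
    refine ⟨_, half_mem hC hσ hρ, fun y v => ?_⟩
    rw [q_half]
    have := h1 y v
    have := h2 y v
    linarith
  · rw [H.null y v hv, H'.null y v hv]
    norm_num
  · rw [H.homog, H'.homog]
    ring

theorem q_hom (σ : Form d X 2) (J : End d X) (x : X) (s : ℝ) (v : TangentSpace (𝓡 d) x) :
    q σ J x (s • v) = s ^ 2 * q σ J x v := by
  have h1 : (![s • v, J x (s • v)] : Fin 2 → TangentSpace (𝓡 d) x) =
      fun i => (fun _ : Fin 2 => s) i • (![v, J x v] : Fin 2 → TangentSpace (𝓡 d) x) i := by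
    funext i
    fin_cases i
    · rfl
    · exact map_smul (J x) s v
  show σ x ![s • v, J x (s • v)] = _
  rw [h1, ContinuousAlternatingMap.map_smul_univ]
  simp [pow_two]

theorem Fn.of_form {θ : Form d X 2} (hθ : IsSmooth θ)
    (hs : Supp 𝒞 J τ (fun y u => max (q θ J y u) 0)) :
    Fn 𝒞 J τ (fun y u => max (q θ J y u) 0) := by
  refine ⟨fun y v => le_max_right _ _, hs, fun y v hv => max_eq_right (hv θ hθ hs),
    fun y r v => ?_⟩
  rw [q_hom, mul_max_of_nonneg _ _ (sq_nonneg r), mul_zero]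

variable [IsManifold (𝓡 d) ∞ X]

/-- the central lemma, local form -/
theorem central_loc (hJ : IsAlmostComplex J) (hτ : IsSmooth τ) (hτt : ∀ x, TamesAt τ J x)
    (hC : Convex ℝ 𝒞) (hn : Nef 𝒞 J τ) {η : Form d X 2} (hη : IsSmooth η) {x : X}
    (h : Pos 𝒞 J τ η x) :
    ∃ (f : (x : X) → TangentSpace (𝓡 d) x → ℝ) (M c : ℝ), Fn 𝒞 J τ f ∧ 0 ≤ M ∧ 0 < c ∧
      ∀ᶠ y in 𝓝 x, ∀ v : TangentSpace (𝓡 d) y, c * q τ J y v ≤ q η J y v + M * f y v := by
  classical
  obtain ⟨e, he⟩ : ∃ e, e = chartAt (E d) x := ⟨_, rfl⟩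
  have hxt : e x ∈ e.target := by rw [he]; exact mem_chart_target (E d) x
  have ht : ∀ᶠ p in 𝓝 (e x), p ∈ e.target := e.open_target.mem_nhds hxt
  have hQ : ∀ (σ : Form d X 2) {p : E d}, p ∈ e.target → ∀ v : E d,
      q σ J (e.symm p) (Pool.Agent.Y455.SY.A x p v) = Pool.Agent.Y455.SY.Q σ J x p v := by
    intro σ p hp v
    rw [he] at hp ⊢
    exact (Pool.Agent.Y455.SY.Q_eq σ J x hp v).symm
  have key : ∃ (f : (x : X) → TangentSpace (𝓡 d) x → ℝ) (M c : ℝ), Fn 𝒞 J τ f ∧ 0 ≤ M ∧ 0 < c ∧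
      ∀ᶠ p in 𝓝 (e x), ∀ v ∈ Metric.sphere (0 : E d) 1,
        c * Pool.Agent.Y455.SY.Q τ J x p v ≤ Pool.Agent.Y455.SY.Q η J x p v +
          M * f (e.symm p) (Pool.Agent.Y455.SY.A x p v) := by
    refine (isCompact_sphere (0 : E d) 1).induction_on
      (p := fun S => ∃ (f : (x : X) → TangentSpace (𝓡 d) x → ℝ) (M c : ℝ), Fn 𝒞 J τ f ∧
        0 ≤ M ∧ 0 < c ∧ ∀ᶠ p in 𝓝 (e x), ∀ v ∈ S,
          c * Pool.Agent.Y455.SY.Q τ J x p v ≤ Pool.Agent.Y455.SY.Q η J x p v +
            M * f (e.symm p) (Pool.Agent.Y455.SY.A x p v)) ?_ ?_ ?_ ?_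
    · exact ⟨_, 0, 1, Fn.zero hn, le_rfl, one_pos, Eventually.of_forall fun p v hv =>
        absurd hv (notMem_empty v)⟩
    · rintro s t hst ⟨f, M, c, h1, h2, h3, h4⟩
      exact ⟨f, M, c, h1, h2, h3, h4.mono fun p hp v hv => hp v (hst hv)⟩
    · rintro s t ⟨f, M, c, h1, h2, h3, h4⟩ ⟨f', M', c', h1', h2', h3', h4'⟩
      refine ⟨_, 2 * max M M', min c c', h1.half hC h1', by positivity, lt_min h3 h3', ?_⟩
      filter_upwards [h4, h4', ht] with p hp hp' hpt v hv
      have t0 : 0 ≤ Pool.Agent.Y455.SY.Q τ J x p v := by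
        rw [← hQ τ hpt v]
        exact q_nonneg (hτt _) _
      have n1 := h1.nonneg (e.symm p) (Pool.Agent.Y455.SY.A x p v)
      have n2 := h1'.nonneg (e.symm p) (Pool.Agent.Y455.SY.A x p v)
      have m1 := mul_le_mul_of_nonneg_right (le_max_left M M') n1
      have m2 := mul_le_mul_of_nonneg_right (le_max_right M M') n2
      have m3 := mul_nonneg h2 n1
      have m4 := mul_nonneg h2' n2
      have c1 := mul_le_mul_of_nonneg_right (min_le_left c c') t0
      have c2 := mul_le_mul_of_nonneg_right (min_le_right c c') t0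
      have m5 : 0 ≤ max M M' := h2.trans (le_max_left _ _)
      have m6 := mul_nonneg m5 n1
      have m7 := mul_nonneg m5 n2
      rcases hv with hv | hv
      · have := hp v hv
        linarith
      · have := hp' v hv
        linarith
    · intro v hv
      have hv0 : v ≠ 0 := by
        rintro rfl
        simp at hv
      have hu0 : Pool.Agent.Y455.SY.A x (e x) v ≠ 0 := by
        intro h0
        apply hv0
        have h1 := Pool.Agent.Y455.SY.BA x (p := e x) (by rw [← he]; exact hxt) v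
        rw [h0, map_zero] at h1
        exact h1.symm
      have hex : e.symm (e x) = x := by
        rw [he]
        exact (chartAt (E d) x).left_inv (mem_chart_source (E d) x)
      -- a form which is positive at `v`, after adding a multiple of a supported form
      have hstep : ∃ (θ : Form d X 2) (M : ℝ), IsSmooth θ ∧
          Supp 𝒞 J τ (fun y u => max (q θ J y u) 0) ∧ 0 ≤ M ∧
          0 < Pool.Agent.Y455.SY.Q η J x (e x) v + M * Pool.Agent.Y455.SY.Q θ J x (e x) v := by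
        have hQ' : ∀ σ : Form d X 2, q σ J (e.symm (e x)) (Pool.Agent.Y455.SY.A x (e x) v) =
            Pool.Agent.Y455.SY.Q σ J x (e x) v := fun σ => hQ σ hxt v
        by_cases hnull : NullV 𝒞 J τ (e.symm (e x)) (Pool.Agent.Y455.SY.A x (e x) v)
        · refine ⟨0, 0, IsSmooth.zero, ?_, le_rfl, ?_⟩
          · intro ε hε
            obtain ⟨σ, hσ, h1⟩ := hn ε hε
            refine ⟨σ, hσ, fun y u => ?_⟩
            have h2 : q (0 : Form d X 2) J y u = 0 := rfl
            show max (q (0 : Form d X 2) J y u) 0 ≤ q σ J y u + ε * q τ J y u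
            rw [h2, max_self]
            have := h1 y u
            linarith
          · have h1 : Pos 𝒞 J τ η (e.symm (e x)) := by rw [hex]; exact h
            have h2 := h1 _ hu0 hnull
            rw [hQ'] at h2
            linarith
        · unfold NullV at hnull
          push Not at hnull
          obtain ⟨θ, hθ, hs, hpos⟩ := hnull
          rw [hQ'] at hpos
          refine ⟨θ, (|Pool.Agent.Y455.SY.Q η J x (e x) v| + 1) /
            Pool.Agent.Y455.SY.Q θ J x (e x) v, hθ, hs, by positivity, ?_⟩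
          rw [div_mul_cancel₀ _ hpos.ne']
          have := neg_abs_le (Pool.Agent.Y455.SY.Q η J x (e x) v)
          linarith
      obtain ⟨θ, M, hθ, hs, hM, hpos⟩ := hstep
      obtain ⟨G, hG⟩ : ∃ G : E d × E d → ℝ, ∀ z, G z = Pool.Agent.Y455.SY.Q η J x z.1 z.2 +
          M * Pool.Agent.Y455.SY.Q θ J x z.1 z.2 := ⟨_, fun _ => rfl⟩
      obtain ⟨c, hc, hc'⟩ : ∃ c : ℝ, 0 < c ∧
          c * Pool.Agent.Y455.SY.Q τ J x (e x) v < G (e x, v) := by
        rw [hG]
        refine ⟨(Pool.Agent.Y455.SY.Q η J x (e x) v + M * Pool.Agent.Y455.SY.Q θ J x (e x) v) /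
          (2 * (|Pool.Agent.Y455.SY.Q τ J x (e x) v| + 1)), by positivity, ?_⟩
        rw [div_mul_eq_mul_div, div_lt_iff₀ (by positivity)]
        have h1 := le_abs_self (Pool.Agent.Y455.SY.Q τ J x (e x) v)
        refine mul_lt_mul_of_pos_left ?_ hpos
        have h2 := abs_nonneg (Pool.Agent.Y455.SY.Q τ J x (e x) v)
        linarith
      have hxt' : e x ∈ (chartAt (E d) x).target := by rw [← he]; exact hxt
      have hGc : ContinuousAt G (e x, v) := by
        have : G = fun z => Pool.Agent.Y455.SY.Q η J x z.1 z.2 +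
          M * Pool.Agent.Y455.SY.Q θ J x z.1 z.2 := funext hG
        rw [this]
        exact (Pool.Agent.Y455.SY.Q_cont hη hJ x hxt').add
          (continuousAt_const.mul (Pool.Agent.Y455.SY.Q_cont hθ hJ x hxt'))
      have hTc : ContinuousAt (fun z : E d × E d => c * Pool.Agent.Y455.SY.Q τ J x z.1 z.2)
          (e x, v) := continuousAt_const.mul (Pool.Agent.Y455.SY.Q_cont hτ hJ x hxt')
      have hev := hTc.eventually_lt hGc hc'
      rw [nhds_prod_eq] at hev
      obtain ⟨P1, hP1, P2, hP2, hP⟩ := eventually_prod_iff.1 hev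
      refine ⟨{u | P2 u}, mem_nhdsWithin_of_mem_nhds hP2, _, M, c, Fn.of_form hθ hs, hM, hc, ?_⟩
      filter_upwards [hP1, ht] with p hp hpt u hu
      have h1 := hP hp hu
      rw [hG] at h1
      have h2 : M * Pool.Agent.Y455.SY.Q θ J x p u ≤
          M * max (q θ J (e.symm p) (Pool.Agent.Y455.SY.A x p u)) 0 := by
        refine mul_le_mul_of_nonneg_left ?_ hM
        rw [hQ θ hpt u]
        exact le_max_left _ _
      exact h1.le.trans (by linarith)
  obtain ⟨f, M, c, h1, h2, h3, h4⟩ := key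
  refine ⟨f, M, c, h1, h2, h3, ?_⟩
  rw [← ev_chart (d := d) x (fun y => ∀ v : TangentSpace (𝓡 d) y,
    c * q τ J y v ≤ q η J y v + M * f y v)]
  rw [← he]
  filter_upwards [h4, ht] with p hp hpt v
  have hpt' : p ∈ (chartAt (E d) x).target := by rw [← he]; exact hpt
  obtain ⟨w, hw⟩ := Pool.Agent.Y455.SY.A_surj x hpt' v
  rcases eq_or_ne w 0 with rfl | hw0
  · have hv0 : v = 0 := by
      rw [← hw]
      exact map_zero _
    have h5 : f (e.symm p) v = 0 := by
      have := h1.homog (e.symm p) 0 v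
      rw [zero_smul] at this
      rw [hv0, this]
      ring
    rw [h5, hv0, q_zero, q_zero]
    simp
  · have hn0 : ‖w‖ ≠ 0 := norm_ne_zero_iff.2 hw0
    have hs : ‖w‖⁻¹ • w ∈ Metric.sphere (0 : E d) 1 := by
      rw [mem_sphere_zero_iff_norm, norm_smul, norm_inv, norm_norm, inv_mul_cancel₀ hn0]
    have h5 := hp _ hs
    rw [← hQ τ hpt, ← hQ η hpt] at h5
    have h6 : Pool.Agent.Y455.SY.A x p (‖w‖⁻¹ • w) =
        (‖w‖⁻¹ • v : TangentSpace (𝓡 d) (e.symm p)) := by
      rw [← hw]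
      exact map_smul _ _ _
    have h7 : c * q τ J (e.symm p) (‖w‖⁻¹ • v : TangentSpace (𝓡 d) (e.symm p)) ≤
        q η J (e.symm p) (‖w‖⁻¹ • v : TangentSpace (𝓡 d) (e.symm p)) +
          M * f (e.symm p) (‖w‖⁻¹ • v : TangentSpace (𝓡 d) (e.symm p)) := by
      rw [← h6]
      exact h5
    rw [q_hom, q_hom, h1.homog] at h7
    have h8 : 0 < ‖w‖⁻¹ ^ 2 := by positivity
    have h9 : ‖w‖⁻¹ ^ 2 * (c * q τ J (e.symm p) v) ≤
        ‖w‖⁻¹ ^ 2 * (q η J (e.symm p) v + M * f (e.symm p) v) := by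
      linarith
    exact le_of_mul_le_mul_left h9 h8

/-- the central lemma over a compact set -/
theorem central (hJ : IsAlmostComplex J) (hτ : IsSmooth τ) (hτt : ∀ x, TamesAt τ J x)
    (hC : Convex ℝ 𝒞) (hn : Nef 𝒞 J τ) {η : Form d X 2} (hη : IsSmooth η) {K : Set X}
    (hK : IsCompact K) (h : ∀ x ∈ K, Pos 𝒞 J τ η x) :
    ∃ (f : (x : X) → TangentSpace (𝓡 d) x → ℝ) (M c : ℝ), Fn 𝒞 J τ f ∧ 0 ≤ M ∧ 0 < c ∧
      ∀ y ∈ K, ∀ v : TangentSpace (𝓡 d) y, c * q τ J y v ≤ q η J y v + M * f y v := by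
  refine hK.induction_on
      (p := fun S => ∃ (f : (x : X) → TangentSpace (𝓡 d) x → ℝ) (M c : ℝ), Fn 𝒞 J τ f ∧
        0 ≤ M ∧ 0 < c ∧ ∀ y ∈ S, ∀ v : TangentSpace (𝓡 d) y,
          c * q τ J y v ≤ q η J y v + M * f y v) ?_ ?_ ?_ ?_
  · exact ⟨_, 0, 1, Fn.zero hn, le_rfl, one_pos, fun y hy => absurd hy (notMem_empty y)⟩
  · rintro s t hst ⟨f, M, c, h1, h2, h3, h4⟩
    exact ⟨f, M, c, h1, h2, h3, fun y hy => h4 y (hst hy)⟩
  · rintro s t ⟨f, M, c, h1, h2, h3, h4⟩ ⟨f', M', c', h1', h2', h3', h4'⟩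
    refine ⟨_, 2 * max M M', min c c', h1.half hC h1', by positivity, lt_min h3 h3', ?_⟩
    intro y hy v
    have t0 := q_nonneg (hτt y) v
    have n1 := h1.nonneg y v
    have n2 := h1'.nonneg y v
    have m1 := mul_le_mul_of_nonneg_right (le_max_left M M') n1
    have m2 := mul_le_mul_of_nonneg_right (le_max_right M M') n2
    have m3 := mul_nonneg h2 n1
    have m4 := mul_nonneg h2' n2
    have c1 := mul_le_mul_of_nonneg_right (min_le_left c c') t0
    have c2 := mul_le_mul_of_nonneg_right (min_le_right c c') t0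
    have m5 : 0 ≤ max M M' := h2.trans (le_max_left _ _)
    have m6 := mul_nonneg m5 n1
    have m7 := mul_nonneg m5 n2
    rcases hy with hy | hy
    · have := h4 y hy v
      linarith
    · have := h4' y hy v
      linarith
  · intro x hx
    obtain ⟨f, M, c, h1, h2, h3, h4⟩ := central_loc hJ hτ hτt hC hn hη (h x hx)
    exact ⟨_, mem_nhdsWithin_of_mem_nhds h4, f, M, c, h1, h2, h3, fun y hy => hy⟩

/-- positivity on the null vectors is an open condition -/
theorem Pos.isOpen (hJ : IsAlmostComplex J) (hτ : IsSmooth τ) (hτt : ∀ x, TamesAt τ J x)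
    (hC : Convex ℝ 𝒞) (hn : Nef 𝒞 J τ) {η : Form d X 2} (hη : IsSmooth η) :
    IsOpen {x | Pos 𝒞 J τ η x} := by
  rw [isOpen_iff_eventually]
  intro x hx
  obtain ⟨f, M, c, h1, h2, h3, h4⟩ := central_loc hJ hτ hτt hC hn hη hx
  filter_upwards [h4] with y hy v hv hnull
  have h5 := hy v
  rw [h1.null y v hnull] at h5
  have h6 := mul_pos h3 (hτt y v hv)
  linarith

/-- uniform positivity on the null vectors over compact sets -/
theorem Pos.unif (hJ : IsAlmostComplex J) (hτ : IsSmooth τ) (hτt : ∀ x, TamesAt τ J x)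
    (hC : Convex ℝ 𝒞) (hn : Nef 𝒞 J τ) {η : Form d X 2} (hη : IsSmooth η) {K : Set X}
    (hK : IsCompact K) (h : ∀ x ∈ K, Pos 𝒞 J τ η x) :
    ∃ c : ℝ, 0 < c ∧ ∀ y ∈ K, ∀ v : TangentSpace (𝓡 d) y, NullV 𝒞 J τ y v →
      c * q τ J y v ≤ q η J y v := by
  obtain ⟨f, M, c, h1, h2, h3, h4⟩ := central hJ hτ hτt hC hn hη hK h
  refine ⟨c, h3, fun y hy v hv => ?_⟩
  have h5 := h4 y hy v
  rw [h1.null y v hv] at h5
  linarith

end Pool.Agent.N13.TL
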