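import Pool.Agent.N13.TL.Main
import Pool.Agent.Q130.SF.Hom
import Pool.Agent.Q130.SF.Cls
import Pool.Agent.Q130.SF.Acs
import Pool.Agent.Y501.SY.AmenU

/-!
The taming locus of a set of closed two-forms: the definitions used in statements, and the
criterion for the existence of a taming form.
-/

set_option autoImplicit false

open Set MeasureTheory Topology
open scoped Manifold ContDiff

noncomputable section

namespace Pool.Agent.N13.TLP

open Pool.Agent.Y501.SYP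

section defs

variable {V : Type} [NormedAddCommGroup V] [NormedSpace ℝ V]
  {X : Type} [TopologicalSpace X] [ChartedSpace V X]

/-- a convex set of smooth closed two-forms, stable under the addition of exact forms -/
structure ExactStable (𝒞 : Set (Form V X 2)) : Prop where
  smooth : ∀ σ ∈ 𝒞, IsSmooth σ
  closed : ∀ σ ∈ 𝒞, IsClosedForm σ
  convex : Convex ℝ 𝒞
  exact : ∀ σ ∈ 𝒞, ∀ (α : Form V X 1) (ρ : Form V X 2), IsSmooth α → IsSmooth ρ → IsD α ρ →
    addF σ ρ ∈ 𝒞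

/-- `x` is reached by `𝒞`: for some neighbourhood `N` of `x`, some `c > 0` and all `ε > 0` there is
`σ` in `𝒞` with `σ(v, Jv) ≥ - ε τ(v, Jv)` for all tangent vectors `v` of `X`, and with
`σ(v, Jv) ≥ c τ(v, Jv)` for all tangent vectors at the points of `N` -/
def Reached (𝒞 : Set (Form V X 2)) (J : End V X) (τ : Form V X 2) (x : X) : Prop :=
  ∃ N ∈ 𝓝 x, ∃ c : ℝ, 0 < c ∧ ∀ ε : ℝ, 0 < ε → ∃ σ ∈ 𝒞,
    (∀ (y : X) (v : TangentSpace 𝓘(ℝ, V) y), -ε * qd τ J y v ≤ qd σ J y v) ∧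
    ∀ y ∈ N, ∀ v : TangentSpace 𝓘(ℝ, V) y, c * qd τ J y v ≤ qd σ J y v

/-- the points which are not reached -/
def Locus (𝒞 : Set (Form V X 2)) (J : End V X) (τ : Form V X 2) : Set X :=
  {x | ¬ Reached 𝒞 J τ x}

/-- `f` is controlled by `𝒞`: for some `κ > 0` and all `ε > 0` there is `σ` in `𝒞` with
`σ(v, Jv) ≥ κ df(v)^2 - ε τ(v, Jv)` for all tangent vectors `v` -/
structure Controlled (𝒞 : Set (Form V X 2)) (J : End V X) (τ : Form V X 2) (f : X → ℝ) :
    Prop where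
  smooth : SmoothFun (V := V) f
  bound : ∃ κ : ℝ, 0 < κ ∧ ∀ ε : ℝ, 0 < ε → ∃ σ ∈ 𝒞, ∀ (y : X) (v : TangentSpace 𝓘(ℝ, V) y),
    κ * (dd f y v) ^ 2 - ε * qd τ J y v ≤ qd σ J y v

/-- the points of the locus at which every controlled function has the same value as at `z` -/
def Fibre (𝒞 : Set (Form V X 2)) (J : End V X) (τ : Form V X 2) (z : X) : Set X :=
  {y | y ∈ Locus 𝒞 J τ ∧ ∀ f, Controlled 𝒞 J τ f → f y = f z}

/-- the component of `z` in its fibre -/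
def Comp (𝒞 : Set (Form V X 2)) (J : End V X) (τ : Form V X 2) (z : X) : Set X :=
  connectedComponentIn (Fibre 𝒞 J τ z) z

/-- For some smooth two-form `τ` taming `J` and for all points `z` of the locus, the component of
`z` in its fibre is small at all its points. -/
def SmallLocus [MeasurableSpace V] [BorelSpace V] (𝒞 : Set (Form V X 2)) (J : End V X) : Prop :=
  ∃ τ : Form V X 2, IsSmooth τ ∧ (∀ x, TamesAt τ J x) ∧ ∀ z ∈ Locus 𝒞 J τ,
    ∀ w ∈ Comp 𝒞 J τ z, SmallAll J (Comp 𝒞 J τ z) w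

end defs

attribute [local instance] cs mf

section lemmas

variable {d : ℕ} {X : Type} [TopologicalSpace X] [ChartedSpace (ES d) X]
  [IsManifold 𝓘(ℝ, ES d) ∞ X] [CompactSpace X] [T2Space X]

omit [IsManifold 𝓘(ℝ, ES d) ∞ X] [CompactSpace X] [T2Space X] in
theorem ExactStable.fc {𝒞 : Set (Form (ES d) X 2)} (hC : ExactStable 𝒞) :
    Pool.Agent.N13.TL.FC (d := d) (X := X) 𝒞 :=
  ⟨fun σ hσ => (smooth_iff σ).1 (hC.smooth σ hσ), fun σ hσ => (closed_iff σ).1 (hC.closed σ hσ),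
    hC.convex, fun σ hσ α ρ h1 h2 h3 => hC.exact σ hσ α ρ ((smooth_iff α).2 h1)
      ((smooth_iff ρ).2 h2) ((isD_iff α ρ).2 h3)⟩

theorem exists_taming {J : End (ES d) X} (hJ : IsAlmostComplex J) :
    ∃ τ : Form (ES d) X 2, IsSmooth τ ∧ ∀ x, TamesAt τ J x := by
  obtain ⟨w, hw, hwt⟩ := Pool.Agent.Q130.SF.exists_tame (d := d) (X := X)
    Pool.Agent.Y484.SY.t_GEN Pool.Agent.Y455.SY.t_PERT Pool.Agent.Y363.SY.t_LOCAL (ac_of J hJ)
  exact ⟨w, (smooth_iff w).2 hw, hwt⟩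

/-- the criterion -/
theorem tame_iff [ConnectedSpace X] {J : End (ES d) X} (hJ : IsAlmostComplex J)
    {𝒞 : Set (Form (ES d) X 2)} (hC : ExactStable 𝒞) (hne : 𝒞.Nonempty) :
    (∃ σ ∈ 𝒞, ∀ x, TamesAt σ J x) ↔ SmallLocus 𝒞 J := by
  have hJ' := ac_of J hJ
  have hC' := hC.fc
  constructor
  · rintro ⟨σ, hσ, hσt⟩
    obtain ⟨τ, hτ, hτt⟩ := exists_taming hJ
    refine ⟨τ, hτ, hτt, fun z hz => ?_⟩
    have h := (Pool.Agent.N13.TL.empty_iff (d := d) (X := X) (𝒞 := 𝒞) (J := J) hJ'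
      ((smooth_iff τ).1 hτ) hτt hC' hne).1 ⟨σ, hσ, hσt⟩
    have h1 : z ∈ (∅ : Set X) := by
      rw [← h]
      exact hz
    exact absurd h1 (notMem_empty z)
  · rintro ⟨τ, hτ, hτt, hsm⟩
    refine (Pool.Agent.N13.TL.empty_iff (d := d) (X := X) (𝒞 := 𝒞) (J := J) hJ'
      ((smooth_iff τ).1 hτ) hτt hC' hne).2 ?_
    rw [Set.eq_empty_iff_forall_notMem]
    intro z hz
    have hF : Fibre 𝒞 J τ z = Pool.Agent.N13.TL.Fib (d := d) (X := X) 𝒞 J τ z := by
      ext y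
      refine and_congr Iff.rfl ⟨fun h f hf => h f ⟨hf.smooth, hf.ctrl⟩,
        fun h f hf => h f ⟨hf.smooth, hf.bound⟩⟩
    refine Pool.Agent.N13.TL.reached_of_small (d := d) (X := X) (𝒞 := 𝒞) (J := J) hJ'
      ((smooth_iff τ).1 hτ) hτt hC' hne (z := z) hz fun w hw => ?_
    have h1 := hsm z hz w (by rw [Comp, hF]; exact hw)
    rw [Comp, hF] at h1
    exact smallAll_of hJ h1

end lemmas

end Pool.Agent.N13.TLP
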