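import Pool.Agent.N13.TL.Null
import Pool.Agent.Y658.SY.Prod

/-!
# The two level construction over the null vectors of a set of closed two-forms
-/

set_option autoImplicit false

open Set Filter Topology MeasureTheory
open scoped Manifold ContDiff

noncomputable section

namespace Pool.Agent.N13.TL

open Pool.Agent.Y501.SY

variable {d : ℕ} {X : Type} [TopologicalSpace X] [ChartedSpace (E d) X]

/-- smooth functions which are constant in the null directions -/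
structure Bas (𝒞 : Set (Form d X 2)) (J : End d X) (τ : Form d X 2) (f : X → ℝ) : Prop where
  smooth : SmoothFun (d := d) f
  null : ∀ (x : X) (v : TangentSpace (𝓡 d) x), NullV 𝒞 J τ x v → dd f x v = 0

/-- the points with nonzero null vectors -/
def NLoc (𝒞 : Set (Form d X 2)) (J : End d X) (τ : Form d X 2) : Set X :=
  {x | ∃ v : TangentSpace (𝓡 d) x, v ≠ 0 ∧ NullV 𝒞 J τ x v}

/-- the fibre of the basic functions in the locus -/
def NFib (𝒞 : Set (Form d X 2)) (J : End d X) (τ : Form d X 2) (z : X) : Set X :=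
  {y | y ∈ NLoc 𝒞 J τ ∧ ∀ f, Bas 𝒞 J τ f → f y = f z}

/-- the points of `F` with a nonzero null vector on which `θ` vanishes -/
def NExc (𝒞 : Set (Form d X 2)) (J : End d X) (τ θ : Form d X 2) (F : Set X) : Set X :=
  {x | x ∈ F ∧ ∃ v : TangentSpace (𝓡 d) x, v ≠ 0 ∧ NullV 𝒞 J τ x v ∧ q θ J x v = 0}

variable {𝒞 : Set (Form d X 2)} {J : End d X} {τ : Form d X 2}

theorem Bas.const (c : ℝ) : Bas 𝒞 J τ (fun _ => c) := by
  refine ⟨SmoothFun.const c, fun x v _ => ?_⟩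
  unfold dd
  rw [mfderiv_const]; rfl

theorem Bas.add {f g : X → ℝ} (hf : Bas 𝒞 J τ f) (hg : Bas 𝒞 J τ g) :
    Bas 𝒞 J τ (fun x => f x + g x) :=
  ⟨hf.smooth.add hg.smooth, fun x v hv => by
    rw [dd_add hf.smooth hg.smooth, hf.null x v hv, hg.null x v hv, add_zero]⟩

theorem Bas.mul {f g : X → ℝ} (hf : Bas 𝒞 J τ f) (hg : Bas 𝒞 J τ g) :
    Bas 𝒞 J τ (fun x => f x * g x) :=
  ⟨hf.smooth.mul hg.smooth, fun x v hv => by
    rw [dd_mul hf.smooth hg.smooth, hf.null x v hv, hg.null x v hv, mul_zero, mul_zero, add_zero]⟩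

theorem Bas.comp {φ : ℝ → ℝ} (hφ : ContDiff ℝ ∞ φ) {f : X → ℝ} (hf : Bas 𝒞 J τ f) :
    Bas 𝒞 J τ (fun x => φ (f x)) :=
  ⟨SmoothFun.comp1 hφ hf.smooth, fun x v hv => by
    rw [dd_comp1 hφ hf.smooth, hf.null x v hv, mul_zero]⟩

theorem Bas.sum {ι : Type} (s : Finset ι) {f : ι → X → ℝ} (h : ∀ i, Bas 𝒞 J τ (f i)) :
    Bas 𝒞 J τ (fun x => ∑ i ∈ s, f i x) := by
  classical
  induction s using Finset.induction_on with
  | empty =>
    simp only [Finset.sum_empty]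
    exact Bas.const 0
  | insert a s ha ih =>
    simp only [Finset.sum_insert ha]
    exact (h a).add ih

/-- separation of a compact set by one basic function -/
theorem exists_basSep {z : X} {R : Set X} (hR : IsCompact R)
    (h : ∀ y ∈ R, ∃ f, Bas 𝒞 J τ f ∧ f y ≠ f z) :
    ∃ g, Bas 𝒞 J τ g ∧ g z = 0 ∧ (∀ x, 0 ≤ g x) ∧ ∃ r : ℝ, 0 < r ∧ ∀ y ∈ R, r ≤ g y := by
  refine hR.induction_on (p := fun R => ∃ g, Bas 𝒞 J τ g ∧ g z = 0 ∧ (∀ x, 0 ≤ g x) ∧
    ∃ r : ℝ, 0 < r ∧ ∀ y ∈ R, r ≤ g y) ?_ ?_ ?_ ?_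
  · exact ⟨_, Bas.const 0, rfl, fun x => le_rfl, 1, one_pos, fun y hy =>
      absurd hy (notMem_empty y)⟩
  · rintro s t hst ⟨g, h1, h2, h3, r, h4, h5⟩
    exact ⟨g, h1, h2, h3, r, h4, fun y hy => h5 y (hst hy)⟩
  · rintro s t ⟨g, h1, h2, h3, r, h4, h5⟩ ⟨g', h1', h2', h3', r', h4', h5'⟩
    refine ⟨_, h1.add h1', by simp [h2, h2'], fun x => add_nonneg (h3 x) (h3' x), min r r',
      lt_min h4 h4', ?_⟩
    rintro y (hy | hy)
    · have := h5 y hy
      have := h3' y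
      have := min_le_left r r'
      show min r r' ≤ g y + g' y
      linarith
    · have := h5' y hy
      have := h3 y
      have := min_le_right r r'
      show min r r' ≤ g y + g' y
      linarith
  · intro y hy
    obtain ⟨f, hf, hne⟩ := h y hy
    have h0 : 0 < (f y + -f z) * (f y + -f z) := mul_self_pos.2 fun h => hne (by linarith)
    have hs := hf.add (Bas.const (-f z))
    refine ⟨{x | (f y + -f z) * (f y + -f z) / 2 < (f x + -f z) * (f x + -f z)}, ?_, _,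
      hs.mul hs, by ring, fun x => mul_self_nonneg _, _, half_pos h0, fun x hx => ?_⟩
    · refine mem_nhdsWithin_of_mem_nhds ?_
      have hc : Continuous (fun x => (f x + -f z) * (f x + -f z)) := (hs.mul hs).smooth.continuous
      exact (isOpen_lt continuous_const hc).mem_nhds (half_lt_self h0)
    · exact le_of_lt hx

/-- a nonnegative cut-off on the line -/
theorem cutn (r : ℝ) (hr : 0 < r) : ∃ b : ℝ → ℝ, ContDiff ℝ ∞ b ∧ b 0 = 1 ∧ (∀ t, 0 ≤ b t) ∧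
    ∀ t, r / 2 ≤ t → b t = 0 := by
  refine ⟨fun t => Real.smoothTransition (2 - 4 * t / r), ?_, ?_, fun t =>
    Real.smoothTransition.nonneg _, fun t ht => ?_⟩
  · have h2 : ContDiff ℝ ∞ Real.smoothTransition := Real.smoothTransition.contDiff
    exact h2.comp (by fun_prop)
  · show Real.smoothTransition (2 - 4 * 0 / r) = 1
    exact Real.smoothTransition.one_of_one_le (by norm_num)
  · show Real.smoothTransition (2 - 4 * t / r) = 0
    refine Real.smoothTransition.zero_of_nonpos ?_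
    have : 2 ≤ 4 * t / r := by
      rw [le_div_iff₀ hr]
      linarith
    linarith

/-- a smooth function equal to the inverse beyond `m` -/
theorem exists_inv (m : ℝ) (hm : 0 < m) : ∃ φ : ℝ → ℝ, ContDiff ℝ ∞ φ ∧ (∀ s, 0 ≤ φ s) ∧
    ∀ s, m ≤ s → φ s = s⁻¹ := by
  have h2 : ContDiff ℝ ∞ Real.smoothTransition := Real.smoothTransition.contDiff
  refine ⟨fun s => Real.smoothTransition (2 * s / m - 1) * s⁻¹, ?_, fun s => ?_, fun s hs => ?_⟩
  · rw [contDiff_iff_contDiffAt]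
    intro s
    rcases lt_or_ge s (m / 2) with hs | hs
    · have h3 : (fun s => Real.smoothTransition (2 * s / m - 1) * s⁻¹) =ᶠ[𝓝 s] fun _ => 0 := by
        filter_upwards [gt_mem_nhds hs] with t ht
        rw [Real.smoothTransition.zero_of_nonpos, zero_mul]
        have : 2 * t / m ≤ 1 := by
          rw [div_le_one hm]
          linarith
        linarith
      exact contDiffAt_const.congr_of_eventuallyEq h3
    · have hs0 : s ≠ 0 := by
        have : 0 < s := lt_of_lt_of_le (by positivity) hs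
        exact this.ne'
      exact ((h2.comp (by fun_prop : ContDiff ℝ ∞ fun s : ℝ => 2 * s / m - 1)).contDiffAt).mul
        (contDiffAt_inv ℝ hs0)
  · show 0 ≤ Real.smoothTransition (2 * s / m - 1) * s⁻¹
    rcases le_or_gt 0 s with hs | hs
    · exact mul_nonneg (Real.smoothTransition.nonneg _) (inv_nonneg.2 hs)
    · rw [Real.smoothTransition.zero_of_nonpos, zero_mul]
      have : 2 * s / m ≤ 0 := div_nonpos_of_nonpos_of_nonneg (by linarith) hm.le
      linarith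
  · show Real.smoothTransition (2 * s / m - 1) * s⁻¹ = s⁻¹
    rw [Real.smoothTransition.one_of_one_le, one_mul]
    have : 2 ≤ 2 * s / m := by
      rw [le_div_iff₀ hm]
      linarith
    linarith

variable [IsManifold (𝓡 d) ∞ X]

theorem nloc_closed (hJ : IsAlmostComplex J) (hτ : IsSmooth τ) (hτt : ∀ x, TamesAt τ J x)
    (hC : Convex ℝ 𝒞) (hn : Nef 𝒞 J τ) : IsClosed (NLoc 𝒞 J τ) := by
  have h : NLoc 𝒞 J τ = {x | Pos 𝒞 J τ 0 x}ᶜ := by
    ext x
    constructor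
    · rintro ⟨v, hv, hnull⟩ h
      exact lt_irrefl _ (h v hv hnull)
    · intro h
      by_contra hcon
      apply h
      intro v hv hnull
      exact absurd ⟨v, hv, hnull⟩ hcon
  rw [h]
  exact (Pos.isOpen hJ hτ hτt hC hn IsSmooth.zero).isClosed_compl

theorem nfib_closed (hJ : IsAlmostComplex J) (hτ : IsSmooth τ) (hτt : ∀ x, TamesAt τ J x)
    (hC : Convex ℝ 𝒞) (hn : Nef 𝒞 J τ) (z : X) : IsClosed (NFib 𝒞 J τ z) := by
  have h : NFib 𝒞 J τ z = NLoc 𝒞 J τ ∩ ⋂ (f : X → ℝ) (_ : Bas 𝒞 J τ f), {y | f y = f z} := by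
    ext y
    simp [NFib]
  rw [h]
  exact (nloc_closed hJ hτ hτt hC hn).inter (isClosed_iInter fun f => isClosed_iInter fun hf =>
    isClosed_eq hf.smooth.continuous continuous_const)

/-- Step A: correction over one fibre -/
theorem stepA [CompactSpace X] [T2Space X] (hJ : IsAlmostComplex J) (hτ : IsSmooth τ)
    (hτt : ∀ x, TamesAt τ J x) (hC : Convex ℝ 𝒞) (hn : Nef 𝒞 J τ) {ζ : Form d X 2}
    (hζ : IsSmooth ζ) {F : Set X} (hF : IsClosed F) {β : Form d X 1} {ρ : Form d X 2}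
    (hβ : IsSmooth β) (hρ : IsSmooth ρ) (hβρ : IsD β ρ)
    (hnn : ∀ x ∈ F, ∀ v : TangentSpace (𝓡 d) x, NullV 𝒞 J τ x v → 0 ≤ q (ζ + ρ) J x v)
    (hthin : ∀ w ∈ NExc 𝒞 J τ (ζ + ρ) F,
      ThinAt2 0 0 J (connectedComponentIn (NExc 𝒞 J τ (ζ + ρ) F) w) w) :
    ∃ (β' : Form d X 1) (ρ' : Form d X 2), IsSmooth β' ∧ IsSmooth ρ' ∧ IsD β' ρ' ∧
      ∀ x ∈ F, Pos 𝒞 J τ (ζ + ρ') x := by
  have hEq : NExc 𝒞 J τ (ζ + ρ) F = F ∩ {x | Pos 𝒞 J τ (ζ + ρ) x}ᶜ := by
    ext x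
    constructor
    · rintro ⟨hx, v, hv, h1, h2⟩
      refine ⟨hx, fun h => ?_⟩
      have h3 := h v hv h1
      rw [h2] at h3
      exact lt_irrefl _ h3
    · rintro ⟨hx, h⟩
      refine ⟨hx, ?_⟩
      by_contra hcon
      apply h
      intro v hv hnull
      refine lt_of_le_of_ne (hnn x hx v hnull) fun h0 => ?_
      exact hcon ⟨v, hv, hnull, h0.symm⟩
  have hEc : IsClosed (NExc 𝒞 J τ (ζ + ρ) F) := by
    rw [hEq]
    exact hF.inter (Pos.isOpen hJ hτ hτt hC hn (hζ.add hρ)).isClosed_compl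
  have hD : D2 (0 : Form d X 2) 0 J (NExc 𝒞 J τ (ζ + ρ) F) = NExc 𝒞 J τ (ζ + ρ) F := by
    apply Subset.antisymm
    · exact fun x hx => hx.1
    · rintro x hx
      obtain ⟨v, hv, -, -⟩ := hx.2
      exact ⟨hx, v, hv, rfl, rfl⟩
  obtain ⟨α, η, hpair, hη⟩ := level2 Pool.Agent.Y484.SY.t_GEN Pool.Agent.Y108.SY.t_PERT2
    Pool.Agent.Y925.SY.t_PLANAR hJ (σ := 0) (θ := 0) IsSmooth.zero IsSmooth.zero hEc (by
      rw [hD]
      exact hthin)
  obtain ⟨hα, hηs, hαη, hηc⟩ := hpair.props Pool.Agent.Y484.SY.t_GEN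
  have hVo : IsOpen {x | TamesAt η J x} := by
    rw [isOpen_iff_eventually]
    intro x hx
    exact TamesAt.nhds Pool.Agent.Y455.SY.t_PERT hJ hηs hx
  have hK : IsCompact (F \ {x | TamesAt η J x}) := (hF.sdiff hVo).isCompact
  obtain ⟨c, hc, hc'⟩ := Pos.unif hJ hτ hτt hC hn (hζ.add hρ) hK (by
    intro x hx
    by_contra hcon
    have h1 : x ∈ NExc 𝒞 J τ (ζ + ρ) F := by
      rw [hEq]
      exact ⟨hx.1, hcon⟩
    exact hx.2 fun v hv => hη x h1 v hv rfl rfl)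
  obtain ⟨C, hC0, hC'⟩ := bound2 hJ hηs hτ hτt
  refine ⟨β + (c / (2 * C)) • α, ρ + (c / (2 * C)) • η, hβ.add (hα.smul _), hρ.add (hηs.smul _),
    hβρ.add (hαη.smul _) hβ (hα.smul _), fun x hx v hv hnull => ?_⟩
  have e1 : q (ζ + (ρ + (c / (2 * C)) • η)) J x v = q (ζ + ρ) J x v +
      c / (2 * C) * q η J x v := by
    show q ζ J x v + (q ρ J x v + c / (2 * C) * q η J x v) = q ζ J x v + q ρ J x v + _
    ring
  rw [e1]
  have t0 : 0 < q τ J x v := hτt x v hv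
  by_cases hxV : x ∈ {x | TamesAt η J x}
  · have h1 := hnn x hx v hnull
    have h2 : 0 < q η J x v := hxV v hv
    positivity
  · have h1 := hc' x ⟨hx, hxV⟩ v hnull
    have h2 := (abs_le.1 (hC' x v)).1
    have h3 : c / (2 * C) * (-(C * q τ J x v)) ≤ c / (2 * C) * q η J x v :=
      mul_le_mul_of_nonneg_left h2 (by positivity)
    have h4 : c / (2 * C) * (-(C * q τ J x v)) = -(c / 2 * q τ J x v) := by
      field_simp
    have h5 : 0 < c / 2 * q τ J x v := by positivity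
    linarith

/-- Step B: gluing along the fibres of the basic functions -/
theorem stepB [CompactSpace X] [T2Space X] (hJ : IsAlmostComplex J) (hτ : IsSmooth τ)
    (hτt : ∀ x, TamesAt τ J x) (hC : Convex ℝ 𝒞) (hn : Nef 𝒞 J τ) {ζ : Form d X 2}
    (hζ : IsSmooth ζ)
    (h : ∀ z ∈ NLoc 𝒞 J τ, ∃ (β : Form d X 1) (ρ : Form d X 2), IsSmooth β ∧ IsSmooth ρ ∧
      IsD β ρ ∧ ∀ x ∈ NFib 𝒞 J τ z, Pos 𝒞 J τ (ζ + ρ) x) :
    ∃ (β : Form d X 1) (ρ : Form d X 2), IsSmooth β ∧ IsSmooth ρ ∧ IsD β ρ ∧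
      ∀ x, Pos 𝒞 J τ (ζ + ρ) x := by
  classical
  have hL := nloc_closed (𝒞 := 𝒞) hJ hτ hτt hC hn
  choose! β ρ hβ hρ hD hP using h
  have hu : ∀ z ∈ NLoc 𝒞 J τ, ∃ u : X → ℝ, Bas 𝒞 J τ u ∧ (∀ x, 0 ≤ u x) ∧ 0 < u z ∧
      ∀ x ∈ NLoc 𝒞 J τ, u x ≠ 0 → Pos 𝒞 J τ (ζ + ρ z) x := by
    intro z hz
    have hVo := Pos.isOpen (𝒞 := 𝒞) hJ hτ hτt hC hn (hζ.add (hρ z hz))
    have hR : IsCompact (NLoc 𝒞 J τ \ {x | Pos 𝒞 J τ (ζ + ρ z) x}) := (hL.sdiff hVo).isCompact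
    obtain ⟨g, hg, hgz, hg0, r, hr, hgr⟩ := exists_basSep (𝒞 := 𝒞) (J := J) (τ := τ) (z := z)
      hR (by
        intro y hy
        by_contra hcon
        push Not at hcon
        exact hy.2 (hP z hz y ⟨hy.1, hcon⟩))
    obtain ⟨b, hb, hb0, hbn, hb1⟩ := cutn r hr
    refine ⟨fun x => b (g x), hg.comp hb, fun x => hbn _, ?_, fun x hx hne => ?_⟩
    · show 0 < b (g z)
      rw [hgz, hb0]
      exact one_pos
    · by_contra hcon
      apply hne
      refine hb1 _ ?_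
      have := hgr x ⟨hx, hcon⟩
      linarith
  choose! u hub hu0 huz huP using hu
  obtain ⟨t, htL, htc⟩ := hL.isCompact.elim_nhds_subcover (fun z => {y | z ∈ NLoc 𝒞 J τ → 0 < u z y})
    (fun z hz => by
      have := (isOpen_lt continuous_const (hub z hz).smooth.continuous).mem_nhds (huz z hz)
      filter_upwards [this] with y hy _ using hy)
  obtain ⟨U, hU⟩ : ∃ U : X → ℝ, ∀ x, U x = ∑ z : ↥t, u z x := ⟨_, fun _ => rfl⟩
  have hUb : Bas 𝒞 J τ U := by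
    have h1 : U = fun x => ∑ z ∈ (Finset.univ : Finset ↥t), u z x := funext hU
    rw [h1]
    exact Bas.sum _ fun z => hub z (htL z z.2)
  have hUpos : ∀ x ∈ NLoc 𝒞 J τ, 0 < U x := by
    intro x hx
    obtain ⟨z, hzt, hz⟩ := mem_iUnion₂.1 (htc hx)
    have hz' : 0 < u z x := hz (htL z hzt)
    rw [hU]
    exact Finset.sum_pos' (fun i _ => hu0 i (htL i i.2) x) ⟨⟨z, hzt⟩, Finset.mem_univ _, hz'⟩
  obtain ⟨m, hm, hmU⟩ : ∃ m : ℝ, 0 < m ∧ ∀ x ∈ NLoc 𝒞 J τ, m ≤ U x := by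
    rcases (NLoc 𝒞 J τ).eq_empty_or_nonempty with he | hne
    · exact ⟨1, one_pos, fun x hx => by rw [he] at hx; exact absurd hx (notMem_empty x)⟩
    · obtain ⟨x₀, hx₀, hmin⟩ := hL.isCompact.exists_isMinOn hne hUb.smooth.continuous.continuousOn
      exact ⟨U x₀, hUpos x₀ hx₀, fun x hx => hmin hx⟩
  obtain ⟨φ, hφ, hφ0, hφ1⟩ := exists_inv m hm
  have hlam : ∀ z : ↥t, Bas 𝒞 J τ (fun x => u z x * φ (U x)) := fun z =>
    (hub z (htL z z.2)).mul (hUb.comp hφ)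
  have hprod := fun z : ↥t => Pool.Agent.Y658.SY.t_PROD d X (fun x => u z x * φ (U x)) (β z) (ρ z)
    (hlam z).smooth (hβ z (htL z z.2)) (hρ z (htL z z.2)) (hD z (htL z z.2))
  have hsumD : ∀ s : Finset ↥t,
      IsSmooth (∑ z ∈ s, (fun x => (u z x * φ (U x)) • β z x : Form d X 1)) ∧
      IsSmooth (∑ z ∈ s, prodD (fun x => u z x * φ (U x)) (β z) (ρ z)) ∧
      IsD (∑ z ∈ s, (fun x => (u z x * φ (U x)) • β z x : Form d X 1))
        (∑ z ∈ s, prodD (fun x => u z x * φ (U x)) (β z) (ρ z)) := by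
    intro s
    induction s using Finset.induction_on with
    | empty =>
      simp only [Finset.sum_empty]
      exact ⟨IsSmooth.zero, IsSmooth.zero, IsD.zero⟩
    | insert a s ha ih =>
      rw [Finset.sum_insert ha, Finset.sum_insert ha]
      obtain ⟨i1, i2, i3⟩ := ih
      obtain ⟨p1, p2, p3, -, -⟩ := hprod a
      exact ⟨p1.add i1, p2.add i2, p3.add i3 p1 i1⟩
  obtain ⟨s1, s2, s3⟩ := hsumD Finset.univ
  refine ⟨_, _, s1, s2, s3, fun x v hv hnull => ?_⟩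
  have hx : x ∈ NLoc 𝒞 J τ := ⟨v, hv, hnull⟩
  have e1 : q (ζ + ∑ z : ↥t, prodD (fun x => u z x * φ (U x)) (β z) (ρ z)) J x v =
      q ζ J x v + ∑ z : ↥t, q (prodD (fun x => u z x * φ (U x)) (β z) (ρ z)) J x v := by
    have h1 := sum_apply2 (d := d) (X := X) Finset.univ
      (fun z : ↥t => prodD (fun x => u z x * φ (U x)) (β z) (ρ z)) x ![v, J x v]
    show ζ x ![v, J x v] + (∑ z : ↥t, prodD (fun x => u z x * φ (U x)) (β z) (ρ z)) x
      ![v, J x v] = _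
    rw [h1]
  have e2 : ∀ z : ↥t, q (prodD (fun x => u z x * φ (U x)) (β z) (ρ z)) J x v =
      (u z x * φ (U x)) * q (ρ z) J x v := by
    intro z
    have h1 := (hprod z).2.2.2.2 x v (J x v)
    show prodD (fun x => u z x * φ (U x)) (β z) (ρ z) x ![v, J x v] = _
    rw [h1, (hlam z).null x v hnull, (hlam z).null x (J x v) (hnull.map_J hJ)]
    ring
  have e3 : ∑ z : ↥t, u z x * φ (U x) = 1 := by
    rw [← Finset.sum_mul, ← hU, hφ1 _ (hmU x hx)]
    exact mul_inv_cancel₀ (hUpos x hx).ne'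
  have e4 : q (ζ + ∑ z : ↥t, prodD (fun x => u z x * φ (U x)) (β z) (ρ z)) J x v =
      ∑ z : ↥t, (u z x * φ (U x)) * q (ζ + ρ z) J x v := by
    rw [e1]
    have h1 : q ζ J x v = ∑ z : ↥t, (u z x * φ (U x)) * q ζ J x v := by
      rw [← Finset.sum_mul, e3, one_mul]
    rw [h1, ← Finset.sum_add_distrib]
    refine Finset.sum_congr rfl fun z _ => ?_
    rw [e2, q_add]
    ring
  rw [e4]
  obtain ⟨z, hzt, hz⟩ := mem_iUnion₂.1 (htc hx)
  have hz' : 0 < u z x := hz (htL z hzt)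
  have hφp : 0 < φ (U x) := by
    rw [hφ1 _ (hmU x hx)]
    exact inv_pos.2 (hUpos x hx)
  refine Finset.sum_pos' (fun i _ => ?_) ⟨⟨z, hzt⟩, Finset.mem_univ _, ?_⟩
  · by_cases hi : u i x = 0
    · rw [hi]
      simp
    · exact mul_nonneg (mul_nonneg (hu0 i (htL i i.2) x) hφp.le)
        (huP i (htL i i.2) x hx hi v hv hnull).le
  · exact mul_pos (mul_pos hz' hφp) (huP z (htL z hzt) x hx hz'.ne' v hv hnull)

/-- **The two level construction.** -/
theorem thurston [CompactSpace X] [T2Space X] (hJ : IsAlmostComplex J) (hτ : IsSmooth τ)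
    (hτt : ∀ x, TamesAt τ J x) (hC : FC 𝒞) (hn : Nef 𝒞 J τ) {ζ : Form d X 2}
    (hζ : IsSmooth ζ)
    (h : ∀ z ∈ NLoc 𝒞 J τ, ∃ (β : Form d X 1) (ρ : Form d X 2), IsSmooth β ∧ IsSmooth ρ ∧
      IsD β ρ ∧
      (∀ x ∈ NFib 𝒞 J τ z, ∀ v : TangentSpace (𝓡 d) x, NullV 𝒞 J τ x v →
        0 ≤ q (ζ + ρ) J x v) ∧
      ∀ w ∈ NExc 𝒞 J τ (ζ + ρ) (NFib 𝒞 J τ z),
        ThinAt2 0 0 J (connectedComponentIn (NExc 𝒞 J τ (ζ + ρ) (NFib 𝒞 J τ z)) w) w) :
    ∃ t₀ : ℝ, 0 < t₀ ∧ ∀ t : ℝ, 0 < t → t ≤ t₀ → ∃ σ ∈ 𝒞, ∀ x, TamesAt (σ + t • ζ) J x := by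
  obtain ⟨β, ρ, hβ, hρ, hD, hP⟩ := stepB hJ hτ hτt hC.convex hn hζ (by
    intro z hz
    obtain ⟨β, ρ, h1, h2, h3, h4, h5⟩ := h z hz
    exact stepA hJ hτ hτt hC.convex hn hζ (nfib_closed hJ hτ hτt hC.convex hn z) h1 h2 h3 h4 h5)
  obtain ⟨f, M, c, h1, h2, h3, h4⟩ := central hJ hτ hτt hC.convex hn (hζ.add hρ)
    (isCompact_univ (X := X)) fun x _ => hP x
  refine ⟨1 / (M + 1), by positivity, fun t ht0 ht1 => ?_⟩
  obtain ⟨σ, hσ, h5⟩ := h1.supp (t * c / 2) (by positivity)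
  refine ⟨σ + t • ρ, hC.exact σ hσ (t • β) (t • ρ) (hβ.smul t) (hρ.smul t) (hD.smul t),
    fun x v hv => ?_⟩
  have e1 : (σ + t • ρ + t • ζ) x ![v, J x v] = q σ J x v + t * q (ζ + ρ) J x v := by
    show q σ J x v + t * q ρ J x v + t * q ζ J x v = q σ J x v + t * (q ζ J x v + q ρ J x v)
    ring
  rw [e1]
  have t0 : 0 < q τ J x v := hτt x v hv
  have e2 := h4 x (mem_univ x) v
  have e3 := h5 x v
  have e4 := h1.nonneg x v
  have e5 : t * M ≤ 1 := by
    have h6 : t * (M + 1) ≤ 1 := by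
      calc t * (M + 1) ≤ 1 / (M + 1) * (M + 1) := mul_le_mul_of_nonneg_right ht1 (by positivity)
        _ = 1 := by field_simp
    nlinarith
  have e6 : t * (c * q τ J x v) ≤ t * (q (ζ + ρ) J x v + M * f x v) :=
    mul_le_mul_of_nonneg_left e2 ht0.le
  have e7 : t * M * f x v ≤ 1 * f x v := mul_le_mul_of_nonneg_right e5 e4
  have e8 : 0 < t * c * q τ J x v := by positivity
  nlinarith

/-- if `𝒞` contains a taming form there are no null vectors -/
theorem nloc_empty [CompactSpace X] (hJ : IsAlmostComplex J) (hτ : IsSmooth τ)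
    (hτt : ∀ x, TamesAt τ J x) (hC : FC 𝒞) {σ : Form d X 2} (hσ : σ ∈ 𝒞)
    (hσt : ∀ x, TamesAt σ J x) : NLoc 𝒞 J τ = ∅ := by
  obtain ⟨c, hc, h⟩ := pert_compact hJ (hC.smooth σ hσ) hτ (isCompact_univ (X := X))
    fun x _ => hσt x
  rw [Set.eq_empty_iff_forall_notMem]
  rintro x ⟨v, hv, hnull⟩
  have h1 := hnull (c • τ) (hτ.smul c) (by
    intro ε hε
    refine ⟨σ, hσ, fun y u => ?_⟩
    have h2 := q_nonneg (h y (mem_univ y) (-c) (by rw [abs_neg, abs_of_pos hc])) u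
    rw [q_add, q_smul] at h2
    have h3 := q_nonneg (hτt y) u
    have h4 := q_nonneg (hσt y) u
    have h5 : 0 ≤ ε * q τ J y u := mul_nonneg hε.le h3
    refine max_le ?_ (by linarith)
    rw [q_smul]
    linarith)
  rw [q_smul] at h1
  have h2 : 0 < c * q τ J x v := mul_pos hc (hτt x v hv)
  linarith

end Pool.Agent.N13.TL
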